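import Mathlib

/-!
# Points of schemes over topological fields: definitions
-/

namespace Pool.Agent.Lib.MP_12adaf_nt.WA

open AlgebraicGeometry CategoryTheory NumberField IsDedekindDomain

universe u

/-- The set `X(K)` of the points of the `k`-scheme `π : X ⟶ Spec k` with values in the extension
`K` of `k`: the morphisms `Spec K ⟶ X` over `Spec k`. -/
def Points {k : Type u} [Field k] {X : Scheme.{u}} (π : X ⟶ Spec (.of k)) (K : Type u) [Field K]
    [Algebra k K] : Type u :=
  {P : Spec (.of K) ⟶ X // P ≫ π = Spec.map (CommRingCat.ofHom (algebraMap k K))}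

/-- The value at the point `P` of a regular function `f` on an open set which contains `P`. -/
noncomputable def value {K : Type u} [Field K] {X : Scheme.{u}} (P : Spec (.of K) ⟶ X)
    {U : X.Opens} (h : P ⁻¹ᵁ U = ⊤) (f : Γ(X, U)) : K :=
  (Scheme.ΓSpecIso (.of K)).hom ((P.appLE U ⊤ h.ge) f)

/-- The topology of `X(K)` for a topological field `K`: the coarsest one in which, for every
regular function `f` on an open set `U` and every open subset `W` of `K`, the set of the points `P`
of `U` with `f(P) ∈ W` is open. -/
instance {k : Type u} [Field k] {X : Scheme.{u}} (π : X ⟶ Spec (.of k)) (K : Type u) [Field K]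
    [Algebra k K] [TopologicalSpace K] : TopologicalSpace (Points π K) :=
  TopologicalSpace.generateFrom {s | ∃ (U : X.Opens) (f : Γ(X, U)) (W : Set K), IsOpen W ∧
    s = {P | ∃ h : P.1 ⁻¹ᵁ U = ⊤, value P.1 h f ∈ W}}

/-- The map `X(k) → X(K)`. -/
noncomputable def Points.base {k : Type u} [Field k] {X : Scheme.{u}} {π : X ⟶ Spec (.of k)}
    (R : Points π k) (K : Type u) [Field K] [Algebra k K] : Points π K :=
  ⟨Spec.map (CommRingCat.ofHom (algebraMap k K)) ≫ R.1, by
    rw [Category.assoc, R.2, ← Spec.map_comp]
    rfl⟩

/-- The map from `X(k)` to the product of the `X(k_v)` over all places, infinite and finite. -/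
noncomputable def diag {k : Type u} [Field k] [NumberField k] {X : Scheme.{u}}
    (π : X ⟶ Spec (.of k)) (R : Points π k) :
    (∀ v : InfinitePlace k, Points π v.Completion) ×
      ∀ w : HeightOneSpectrum (𝓞 k), Points π (w.adicCompletion k) :=
  (fun v => R.base v.Completion, fun w => R.base (w.adicCompletion k))

/-- The function field of the integral `k`-scheme `π : X ⟶ Spec k` as an extension of `k`. -/
noncomputable abbrev algebraFunctionField {k : Type u} [Field k] {X : Scheme.{u}} [IsIntegral X]
    (π : X ⟶ Spec (.of k)) : Algebra k X.functionField :=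
  ((X.presheaf.germ ⊤ (genericPoint X) trivial).hom.comp
    (π.appTop.hom.comp (Scheme.ΓSpecIso (.of k)).inv.hom)).toAlgebra

/-- The ring of regular functions on an open set as a `k`-algebra. -/
noncomputable abbrev algebraSections {k : Type u} [Field k] {X : Scheme.{u}}
    (π : X ⟶ Spec (.of k)) (V : X.Opens) : Algebra k Γ(X, V) :=
  ((π.appLE ⊤ V le_top).hom.comp (Scheme.ΓSpecIso (.of k)).inv.hom).toAlgebra

end Pool.Agent.Lib.MP_12adaf_nt.WA
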