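import Mathlib
import Pool.Agent.Lib.MP_12adaf_ntNS.C6a

/-!
# Points of smooth algebras over complete fields
-/

namespace Pool.Agent.Lib.MP_12adaf_nt.WA

universe u

open Polynomial Filter Topology in
/-- Homomorphisms from a standard étale algebra to a field. -/
private lemma a1_hom {A S K : Type*} [CommRing A] [CommRing S] [Algebra A S] [Field K]
    (E : StandardEtalePresentation A S) (e : A →+* K) {x : K} (h1 : (E.f.map e).eval x = 0)
    (h2 : (E.g.map e).eval x ≠ 0) :
    ∃ φ : S →+* K, (∀ a, φ (algebraMap A S a) = e a) ∧ φ E.x = x := by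
  letI := e.toAlgebra
  have he : algebraMap A K = e := rfl
  have h : E.P.HasMap x :=
    ⟨by rw [aeval_def, ← eval_map, he]; exact h1,
      by rw [aeval_def, ← eval_map, he]; exact isUnit_iff_ne_zero.2 h2⟩
  refine ⟨((E.P.lift x h).comp E.equivRing.toAlgHom).toRingHom, ?_, ?_⟩
  · intro a
    exact AlgHom.commutes _ a
  · change E.P.lift x h (E.equivRing E.x) = x
    rw [E.equivRing_x, StandardEtalePair.lift_X]

open Polynomial Filter Topology in
private lemma a1_eval {A S K : Type*} [CommRing A] [CommRing S] [Algebra A S] [CommRing K]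
    {φ : S →+* K} {e : A →+* K} (he : ∀ a, φ (algebraMap A S a) = e a) (p : A[X]) (s : S) :
    (p.map e).eval (φ s) = φ (aeval s p) := by
  have : e = φ.comp (algebraMap A S) := RingHom.ext fun a => (he a).symm
  rw [eval_map, this, ← hom_eval₂, aeval_def]

private lemma a1_cont {k K : Type*} [Field k] [NontriviallyNormedField K] [Algebra k K] {n : ℕ}
    (p : MvPolynomial (Fin n) k) : Continuous fun t : Fin n → K => MvPolynomial.aeval t p := by
  have := MvPolynomial.continuous_eval (p.map (algebraMap k K))
  simpa [MvPolynomial.eval_map, ← MvPolynomial.aeval_def] using this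

open Polynomial Filter Topology in
private lemma a1_cont2 {k K : Type*} [Field k] [NontriviallyNormedField K] [Algebra k K] {n : ℕ}
    (p : (MvPolynomial (Fin n) k)[X]) :
    Continuous fun q : (Fin n → K) × K =>
      (p.map (MvPolynomial.aeval (R := k) q.1).toRingHom).eval q.2 := by
  have hd : ∀ t : Fin n → K,
      (p.map (MvPolynomial.aeval (R := k) t).toRingHom).natDegree < p.natDegree + 1 := fun t =>
    Nat.lt_succ_of_le natDegree_map_le
  simp_rw [eval_eq_sum_range' (hd _), coeff_map]
  refine continuous_finsetSum _ fun i _ => ?_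
  exact ((a1_cont (p.coeff i)).comp continuous_fst).mul (continuous_snd.pow i)

/-- A nonzero polynomial does not vanish on a neighbourhood. -/
private lemma a1_dense {k K : Type*} [Field k] [NontriviallyNormedField K] [Algebra k K] {n : ℕ}
    {a : MvPolynomial (Fin n) k} (ha : a ≠ 0) {t₀ : Fin n → K} {U : Set (Fin n → K)}
    (hU : U ∈ nhds t₀) : ∃ t ∈ U, MvPolynomial.aeval t a ≠ 0 := by
  by_contra hcon
  push Not at hcon
  obtain ⟨ε, hε, hb⟩ := Metric.mem_nhds_iff.1 hU
  apply ha
  have hinf : ∀ i, (Metric.ball (t₀ i) ε).Infinite := fun i =>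
    infinite_of_mem_nhds (t₀ i) (Metric.ball_mem_nhds _ hε)
  have h0 : a.map (algebraMap k K) = 0 := by
    refine MvPolynomial.funext_set (fun i => Metric.ball (t₀ i) ε) hinf fun x hx => ?_
    have hx' : x ∈ U := by
      apply hb
      rw [Metric.mem_ball, dist_pi_lt_iff hε]
      exact fun i => hx i (Set.mem_univ i)
    have := hcon x hx'
    rw [map_zero, MvPolynomial.eval_map, ← MvPolynomial.aeval_def, this]
  exact (MvPolynomial.map_injective _ (algebraMap k K).injective) (by rw [h0, map_zero])

/-- **Inverse function theorem.**  Near a point of a smooth algebra over a complete field there are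
points outside the zeros of a given nonzero element.

Proof.  Let `p` be the kernel of `P`, a prime ideal.  By
`Algebra.IsSmoothAt.exists_isStandardEtale_mvPolynomial` there are `f ∉ p` and `n` such that
`B[1/f]` is a standard étale algebra over `A = k[t_1, …, t_n]`; so (see `StandardEtalePair` in
Mathlib) `B[1/f] = A[X][1/h] / (F)`, `F` monic, and `F'` is a unit in `B[1/f]`; let `x` be the class
of `X`.  `P` extends to `B[1/f]` and is given there by `t⁰ : Fin n → K`, the values of the `t i`, and
`x⁰`, the value of `x`, with `F(t⁰, x⁰) = 0`, `h(t⁰, x⁰) ≠ 0`, `F'(t⁰, x⁰) ≠ 0`.  As `K` is complete, for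
every `t` near `t⁰` the polynomial `F(t, X)` has a root near `x⁰` (implicit function theorem in one
variable, or Newton's method; the set of `t` where a root in the ball exists is a neighbourhood of
`t⁰`; one can use `HasStrictFDerivAt`/`HasStrictDerivAt` for `(t, X) ↦ (t, F(t, X))` and
`map_nhds_eq_of_equiv`, or see `exists_root_near` in `MP_12adaf_ntNS`), which defines a point `P'` of
`B[1/f]`, so of `B`, and `P' y` is near `P y` for the finitely many `y ∈ b`, as `y f ^ m` is the class of
a polynomial in `t`, `X`, `1/h`.  Moreover `A → B[1/f]` is injective (flat: étale algebras are flat;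
`B[1/f]` is a domain) and `B[1/f]` is algebraic over `A` (generated by `x`, integral over `A`, and
`1 / h`), so `a_0 + a_1 g + ⋯ + a_m g ^ m = 0` with `a_i ∈ A`, `a_0 ≠ 0` (divide by a power of `g ≠ 0`).
Choose `t` near `t⁰` with `a_0(t) ≠ 0` (a nonzero polynomial over an infinite field which is not
discrete does not vanish on a nonempty open set; e.g. restrict it to a line through `t⁰`); then
`P' g ≠ 0`. -/
theorem exists_near_ne_zero {k K B : Type u} [Field k] [NontriviallyNormedField K]
    [CompleteSpace K] [Algebra k K] [CommRing B] [IsDomain B] [Algebra k B]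
    [Algebra.Smooth k B] (P : B →ₐ[k] K) {g : B} (hg : g ≠ 0) (b : Finset B) {ε : ℝ}
    (hε : 0 < ε) : ∃ P' : B →ₐ[k] K, P' g ≠ 0 ∧ ∀ x ∈ b, ‖P' x - P x‖ < ε := by
  classical
  set p : Ideal B := RingHom.ker P with hp
  have hprime : p.IsPrime := RingHom.ker_isPrime P
  have hsm : Algebra.IsSmoothAt k p := by
    have : Algebra.FormallySmooth B (Localization.AtPrime p) :=
      Algebra.FormallySmooth.of_isLocalization p.primeCompl
    exact Algebra.FormallySmooth.comp k B (Localization.AtPrime p)
  obtain ⟨f, hf, n, i1, i2, i3⟩ :=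
    Algebra.IsSmoothAt.exists_isStandardEtale_mvPolynomial (R := k) (p := p)
  obtain ⟨E⟩ := i3.nonempty_standardEtalePresentation
  have hPf : P f ≠ 0 := fun h => hf h
  have hf0 : f ≠ 0 := by
    rintro rfl
    exact hPf (map_zero P)
  -- the extension of `P`
  let φ₀ : Localization.Away f →+* K :=
    IsLocalization.Away.lift (S := Localization.Away f) f (g := P.toRingHom)
      (isUnit_iff_ne_zero.2 hPf)
  have hφ₀ : ∀ y : B, φ₀ (algebraMap B (Localization.Away f) y) = P y := fun y =>
    IsLocalization.Away.lift_eq f (isUnit_iff_ne_zero.2 hPf) y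
  set t₀ : Fin n → K := fun i =>
    φ₀ (algebraMap (MvPolynomial (Fin n) k) (Localization.Away f) (MvPolynomial.X i)) with ht₀
  set x₀ : K := φ₀ E.x with hx₀
  have hk : ∀ c : k, φ₀ (algebraMap k (Localization.Away f) c) = algebraMap k K c := by
    intro c
    rw [IsScalarTower.algebraMap_apply k B (Localization.Away f), hφ₀, AlgHom.commutes]
  have he₀ : ∀ a, φ₀ (algebraMap (MvPolynomial (Fin n) k) (Localization.Away f) a) =
      (MvPolynomial.aeval (R := k) t₀).toRingHom a := by
    intro a
    have h1 : φ₀.comp (algebraMap (MvPolynomial (Fin n) k) (Localization.Away f)) =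
        (MvPolynomial.aeval (R := k) t₀).toRingHom := by
      apply MvPolynomial.ringHom_ext
      · intro c
        have h2 : algebraMap (MvPolynomial (Fin n) k) (Localization.Away f) (MvPolynomial.C c) =
            algebraMap k (Localization.Away f) c :=
          (IsScalarTower.algebraMap_apply k (MvPolynomial (Fin n) k) (Localization.Away f) c).symm
        rw [RingHom.comp_apply, h2, hk]
        exact (MvPolynomial.aeval_C t₀ c).symm
      · intro i
        rw [RingHom.comp_apply]
        exact (MvPolynomial.aeval_X t₀ i).symm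
    exact congrArg (fun r => r a) h1
  have hr₀ : (E.f.map (MvPolynomial.aeval (R := k) t₀).toRingHom).eval x₀ = 0 := by
    rw [hx₀, a1_eval he₀, E.hasMap.1, map_zero]
  have hg₀ : (E.g.map (MvPolynomial.aeval (R := k) t₀).toRingHom).eval x₀ ≠ 0 := by
    rw [hx₀, a1_eval he₀]
    exact (E.hasMap.2.map φ₀).ne_zero
  have hd₀ : IsUnit
      ((E.f.map (MvPolynomial.aeval (R := k) t₀).toRingHom).derivative.eval x₀) := by
    rw [Polynomial.derivative_map, hx₀, a1_eval he₀]
    exact E.hasMap.isUnit_derivative_f.map φ₀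
  obtain ⟨-, -, hex, -⟩ := Pool.Agent.Lib.MP_12adaf_nt.NS.exists_near_root (l := nhds t₀)
    (N := E.f.natDegree)
    (P := fun t : Fin n → K => E.f.map (MvPolynomial.aeval (R := k) t).toRingHom)
    (P₀ := E.f.map (MvPolynomial.aeval (R := k) t₀).toRingHom)
    (fun _ => Polynomial.natDegree_map_le) Polynomial.natDegree_map_le
    (fun j => by
      simp only [Polynomial.coeff_map]
      exact (a1_cont (E.f.coeff j)).tendsto t₀) hr₀ hd₀
  -- the elements of `B`
  have hB : ∀ y : B, ∃ (q : Polynomial (MvPolynomial (Fin n) k)) (m : ℕ),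
      algebraMap B (Localization.Away f) y * Polynomial.aeval E.x E.g ^ m =
        Polynomial.aeval E.x q := fun y => E.exists_mul_aeval_x_g_pow_eq_aeval_x _
  choose q m hqm using hB
  have hval : ∀ (t : Fin n → K) (φ : Localization.Away f →+* K)
      (_ : ∀ a, φ (algebraMap (MvPolynomial (Fin n) k) (Localization.Away f) a) =
        (MvPolynomial.aeval (R := k) t).toRingHom a)
      (_ : (E.g.map (MvPolynomial.aeval (R := k) t).toRingHom).eval (φ E.x) ≠ 0) (y : B),
      φ (algebraMap B (Localization.Away f) y) =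
        ((q y).map (MvPolynomial.aeval (R := k) t).toRingHom).eval (φ E.x) /
          (E.g.map (MvPolynomial.aeval (R := k) t).toRingHom).eval (φ E.x) ^ m y := by
    intro t φ hφ hne y
    rw [eq_div_iff (pow_ne_zero _ hne), a1_eval hφ, a1_eval hφ, ← map_pow, ← map_mul, hqm]
  have hne : ∀ᶠ z in nhds t₀ ×ˢ nhds x₀,
      (E.g.map (MvPolynomial.aeval (R := k) z.1).toRingHom).eval z.2 ≠ 0 := by
    rw [← nhds_prod_eq]
    exact (a1_cont2 E.g).continuousAt.eventually_ne hg₀
  have hnear : ∀ᶠ z in nhds t₀ ×ˢ nhds x₀, ∀ y ∈ b,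
      ‖((q y).map (MvPolynomial.aeval (R := k) z.1).toRingHom).eval z.2 /
          (E.g.map (MvPolynomial.aeval (R := k) z.1).toRingHom).eval z.2 ^ m y - P y‖ < ε := by
    rw [Filter.eventually_all_finset, ← nhds_prod_eq]
    intro y _
    have h1 : Filter.Tendsto (fun z : (Fin n → K) × K =>
        ((q y).map (MvPolynomial.aeval (R := k) z.1).toRingHom).eval z.2 /
          (E.g.map (MvPolynomial.aeval (R := k) z.1).toRingHom).eval z.2 ^ m y)
        (nhds (t₀, x₀)) (nhds (P y)) := by
      rw [← hφ₀ y, hval t₀ φ₀ he₀ hg₀ y]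
      exact Filter.Tendsto.div ((a1_cont2 (q y)).tendsto (t₀, x₀))
        (((a1_cont2 E.g).pow _).tendsto (t₀, x₀)) (pow_ne_zero _ hg₀)
    have h2 := Metric.tendsto_nhds.1 h1 ε hε
    simpa only [dist_eq_norm] using h2
  obtain ⟨pa, hpa, pb, hpb, hpab⟩ := Filter.eventually_prod_iff.1 (hne.and hnear)
  obtain ⟨ε₁, hε₁, hpb'⟩ := Metric.eventually_nhds_iff.1 hpb
  -- the element `a` of the polynomial ring
  have hinj : Function.Injective (algebraMap B (Localization.Away f)) :=
    IsLocalization.injective (Localization.Away f)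
      (powers_le_nonZeroDivisors_of_noZeroDivisors hf0)
  have hdom : IsDomain (Localization.Away f) :=
    IsLocalization.isDomain_localization (powers_le_nonZeroDivisors_of_noZeroDivisors hf0)
  have hv0 : Polynomial.aeval E.x (q g) ≠ 0 := by
    rw [← hqm g]
    refine mul_ne_zero ?_ (pow_ne_zero _ E.hasMap.2.ne_zero)
    intro h0
    exact hg (hinj (by rw [h0, map_zero]))
  have hint : IsIntegral (MvPolynomial (Fin n) k) E.x := ⟨E.f, E.monic_f, E.hasMap.1⟩
  have halg : IsAlgebraic (MvPolynomial (Fin n) k) (Polynomial.aeval E.x (q g)) :=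
    (IsIntegral.of_mem_of_fg _ hint.fg_adjoin_singleton _
      (Polynomial.aeval_mem_adjoin_singleton _ _)).isAlgebraic
  obtain ⟨a, ha, hdvd⟩ := halg.exists_nonzero_dvd (mem_nonZeroDivisors_of_ne_zero hv0)
  obtain ⟨t, ⟨hat, w, hw1, hw2⟩, hta⟩ := a1_dense ha (hpa.and (hex ε₁ hε₁))
  obtain ⟨F1, F2⟩ := hpab hat (hpb' (y := w) (by rwa [dist_eq_norm]))
  simp only at F1 F2
  obtain ⟨φ, hφ1, hφ2⟩ := a1_hom E (MvPolynomial.aeval (R := k) t).toRingHom hw2 F1
  have hφk : ∀ c : k, φ (algebraMap k (Localization.Away f) c) = algebraMap k K c := by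
    intro c
    rw [IsScalarTower.algebraMap_apply k (MvPolynomial (Fin n) k) (Localization.Away f), hφ1]
    exact MvPolynomial.aeval_C t c
  let P' : B →ₐ[k] K :=
    { φ.comp (algebraMap B (Localization.Away f)) with
      commutes' := fun c => by
        change φ (algebraMap B (Localization.Away f) (algebraMap k B c)) = _
        rw [← IsScalarTower.algebraMap_apply k B (Localization.Away f), hφk] }
  have hP' : ∀ y, P' y = φ (algebraMap B (Localization.Away f) y) := fun _ => rfl
  refine ⟨P', ?_, ?_⟩
  · intro h0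
    obtain ⟨c, hc⟩ := hdvd
    have h1 := congrArg φ hc
    rw [hφ1, ← hqm g, map_mul, map_mul, ← hP', h0, zero_mul, zero_mul] at h1
    exact hta h1
  · intro y hy
    have h1 := F2 y hy
    rw [← hφ2] at h1 F1
    rw [hP', hval t φ hφ1 F1 y]
    exact h1

end Pool.Agent.Lib.MP_12adaf_nt.WA
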