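import Pool.Agent.Lib.MP_12adaf_ntWA.A2a

/-!
# The topology of the points of an affine open set
-/

namespace Pool.Agent.Lib.MP_12adaf_nt.WA

open AlgebraicGeometry CategoryTheory

universe u

/-- The value of a section of a larger open set in terms of the sections of the affine open set. -/
private theorem a2b_value_eq {K : Type u} [Field K] {X : Scheme.{u}} (P : Spec (.of K) ⟶ X)
    {V U : X.Opens} (hPV : P ⁻¹ᵁ V = ⊤) (r β : Γ(X, V)) (hr : X.basicOpen r ≤ U) (f : Γ(X, U))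
    (m : ℕ)
    (h : X.presheaf.map (homOfLE hr).op f *
      (X.presheaf.map (homOfLE (X.basicOpen_le r)).op r) ^ m =
      X.presheaf.map (homOfLE (X.basicOpen_le r)).op β)
    (h0 : value P hPV r ≠ 0) :
    ∃ hPU : P ⁻¹ᵁ U = ⊤, value P hPU f = value P hPV β / value P hPV r ^ m := by
  have hD : P ⁻¹ᵁ X.basicOpen r = ⊤ := (preimage_basicOpen_iff P hPV r).2 h0
  obtain ⟨x, hx⟩ := preimage_eq_top_iff P
  have hU : P ⁻¹ᵁ U = ⊤ := (hx U).2 (hr ((hx _).1 hD))
  refine ⟨hU, ?_⟩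
  obtain ⟨φ, hφ⟩ := exists_valueHom P hD
  have h1 := congrArg φ h
  rw [map_mul, map_pow, hφ, hφ, hφ, value_map P _ hU hD, value_map P _ hPV hD,
    value_map P _ hPV hD] at h1
  rw [eq_div_iff (pow_ne_zero _ h0)]
  exact h1

/-- The points `R` of an affine open set near a given point `P'` are in a given neighbourhood of it.

Proof.  By the definition of the topology (induction on `TopologicalSpace.GenerateOpen`; the
statement for finite intersections is clear) it is enough to treat `N = {P | f(P) ∈ W}`,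
`f ∈ Γ(X, U)`.  The image `x` of the point is in `V ∩ U`; there is `r ∈ Γ(X, V)` with
`x ∈ D(r) ⊆ V ∩ U` (`IsAffineOpen.exists_basicOpen_le`), so `P' r ≠ 0`.  As `Γ(X, D(r)) = Γ(X, V)[1/r]`
(`IsAffineOpen.isLocalization_basicOpen`), `f|_{D(r)} r ^ m = β|_{D(r)}` for some `β ∈ Γ(X, V)` and
`m : ℕ`.  If `R r ≠ 0` then `pointOf R` is in `D(r) ⊆ U` and `f(pointOf R) = R β / R r ^ m`
(`value_map`, `value_pointOf`), and this is in `W` if `R β`, `R r` are near `P' β`, `P' r`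
(continuity of `(y, z) ↦ y / z ^ m` where `z ≠ 0`).  Take `b = {r, β}`. -/
theorem exists_nhds_pointOf {k : Type u} [Field k] {X : Scheme.{u}} (π : X ⟶ Spec (.of k))
    {K : Type u} [NontriviallyNormedField K] [Algebra k K] {V : X.Opens} (hV : IsAffineOpen V)
    {N : Set (Points π K)} (hN : IsOpen N) :
    letI := algebraSections π V
    ∀ P' : Γ(X, V) →ₐ[k] K, pointOf π hV P' ∈ N →
      ∃ (b : Finset Γ(X, V)) (ε : ℝ), 0 < ε ∧
        ∀ R : Γ(X, V) →ₐ[k] K, (∀ x ∈ b, ‖R x - P' x‖ < ε) → pointOf π hV R ∈ N := by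
  classical
  let _ := algebraSections π V
  intro P' hP'
  induction hN with
  | univ => exact ⟨∅, 1, one_pos, fun R _ => Set.mem_univ _⟩
  | inter s t _ _ ihs iht =>
    obtain ⟨b₁, ε₁, h1, H1⟩ := ihs hP'.1
    obtain ⟨b₂, ε₂, h2, H2⟩ := iht hP'.2
    refine ⟨b₁ ∪ b₂, min ε₁ ε₂, lt_min h1 h2, fun R hR => ⟨?_, ?_⟩⟩
    · exact H1 R fun x hx => (hR x (Finset.mem_union_left _ hx)).trans_le (min_le_left _ _)
    · exact H2 R fun x hx => (hR x (Finset.mem_union_right _ hx)).trans_le (min_le_right _ _)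
  | sUnion S _ ih =>
    obtain ⟨s, hs, hPs⟩ := hP'
    obtain ⟨b, ε, h1, H⟩ := ih s hs hPs
    exact ⟨b, ε, h1, fun R hR => ⟨s, hs, H R hR⟩⟩
  | basic s hs =>
    obtain ⟨U, f, W, hW, rfl⟩ := hs
    obtain ⟨hPU, hfW⟩ := hP'
    obtain ⟨hPV, hval⟩ := value_pointOf π hV P'
    obtain ⟨x, hx⟩ := preimage_eq_top_iff (pointOf π hV P').1
    obtain ⟨r, hr, hxr⟩ := hV.exists_basicOpen_le ⟨x, (hx U).1 hPU⟩ ((hx V).1 hPV)
    have hr0 : value (pointOf π hV P').1 hPV r ≠ 0 :=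
      (preimage_basicOpen_iff _ hPV r).1 ((hx _).2 hxr)
    have := hV.isLocalization_basicOpen r
    obtain ⟨m, β, hβ⟩ := IsLocalization.Away.surj r (X.presheaf.map (homOfLE hr).op f)
    have key : ∀ R : Γ(X, V) →ₐ[k] K, R r ≠ 0 → ∃ h : (pointOf π hV R).1 ⁻¹ᵁ U = ⊤,
        value (pointOf π hV R).1 h f = R β / R r ^ m := by
      intro R hR
      obtain ⟨hRV, hvalR⟩ := value_pointOf π hV R
      obtain ⟨h1, h2⟩ := a2b_value_eq (pointOf π hV R).1 hRV r β hr f m hβ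
        (by rw [hvalR]; exact hR)
      exact ⟨h1, by rw [h2, hvalR, hvalR]⟩
    rw [hval] at hr0
    obtain ⟨_, h2⟩ := key P' hr0
    rw [h2] at hfW
    have hcont : ContinuousAt (fun p : K × K => p.1 / p.2 ^ m) (P' β, P' r) :=
      continuousAt_fst.div (continuousAt_snd.pow m) (pow_ne_zero _ hr0)
    have hev : ∀ᶠ p : K × K in nhds (P' β, P' r), p.1 / p.2 ^ m ∈ W ∧ p.2 ≠ 0 :=
      (hcont.eventually_mem (hW.mem_nhds hfW)).and
        (continuousAt_snd.eventually_ne hr0)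
    obtain ⟨ε, hε, hball⟩ := Metric.eventually_nhds_iff.1 hev
    refine ⟨{r, β}, ε, hε, fun R hR => ?_⟩
    have h3 : ‖R r - P' r‖ < ε := hR r (by simp)
    have h4 : ‖R β - P' β‖ < ε := hR β (by simp)
    obtain ⟨h5, h6⟩ := hball (y := (R β, R r)) (by
      rw [Prod.dist_eq, dist_eq_norm, dist_eq_norm]
      exact max_lt h4 h3)
    obtain ⟨h7, h8⟩ := key R h6
    exact ⟨h7, by rw [h8]; exact h5⟩

end Pool.Agent.Lib.MP_12adaf_nt.WA
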