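import Pool.Agent.Lib.MP_12adaf_ntWA.A1
import Pool.Agent.Lib.MP_12adaf_ntWA.A2b

/-!
# Points of smooth schemes over complete fields: moving a point into a given affine open set
-/

namespace Pool.Agent.Lib.MP_12adaf_nt.WA

open AlgebraicGeometry CategoryTheory

universe u

/-- Rings of regular functions on affine open sets of smooth `k`-schemes are smooth
`k`-algebras (`Smooth.smooth_appLE`, `Γ(Spec k, ⊤) = k` by `Scheme.ΓSpecIso`). -/
theorem smooth_sections {k : Type u} [Field k] {X : Scheme.{u}} (π : X ⟶ Spec (.of k)) [Smooth π]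
    {V : X.Opens} (hV : IsAffineOpen V) :
    letI := algebraSections π V
    Algebra.Smooth k Γ(X, V) := by
  have h1 : (π.appLE ⊤ V le_top).hom.Smooth := π.smooth_appLE (isAffineOpen_top _) hV le_top
  have h2 : ((Scheme.ΓSpecIso (.of k)).inv.hom).Smooth :=
    RingHom.Smooth.holdsForLocalizationAway.of_bijective _ _
      (ConcreteCategory.bijective_of_isIso (Scheme.ΓSpecIso (.of k)).inv)
  exact RingHom.Smooth.comp h2 h1

/-- **Moving into an affine open set.**  A point of a smooth integral `k`-scheme over a complete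
field can be moved, within a given neighbourhood `N`, to a point of a given nonempty affine open set
`V` outside the zeros of a given `g ≠ 0`.

Proof.  Let `V₁` be an affine open set which contains the image of `P`, `B₁ = Γ(X, V₁)`, `P = pointOf P₀` with `P₀ : B₁ → K` (`exists_eq_pointOf`), and `b, ε` as in
`exists_nhds_pointOf` for `V₁`, `P₀`, `N`.  As `X` is irreducible, `V₁ ∩ D(g)` (`D(g) ⊆ V`, not empty
as `g ≠ 0` and `X` is integral) is not empty, so contains some nonempty `D(s)`, `s ∈ B₁`, `s ≠ 0`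
(`IsAffineOpen.exists_basicOpen_le`).  By `exists_near_ne_zero` there is a point `P₁ : B₁ → K` with
`P₁ s ≠ 0` near `P₀` on `b`.  So `pointOf P₁ ∈ N` is a point of `D(s) ⊆ D(g) ⊆ V`, so equal to
`pointOf π hV P'` for some `P'`, with `P' g ≠ 0` (`preimage_basicOpen_iff`). -/
theorem exists_move {k : Type u} [Field k] {X : Scheme.{u}}
    (π : X ⟶ Spec (.of k)) [IsIntegral X] [Smooth π] {K : Type u} [NontriviallyNormedField K]
    [CompleteSpace K] [Algebra k K] {V : X.Opens} (hV : IsAffineOpen V) (hne : (V : Set X).Nonempty)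
    {g : Γ(X, V)} (hg : g ≠ 0) {N : Set (Points π K)} (hN : IsOpen N) {P : Points π K}
    (hP : P ∈ N) :
    letI := algebraSections π V
    ∃ P' : Γ(X, V) →ₐ[k] K, P' g ≠ 0 ∧ pointOf π hV P' ∈ N := by
  obtain ⟨x, hx⟩ := preimage_eq_top_iff P.1
  obtain ⟨W, hW, hxW, -⟩ := exists_isAffineOpen_mem_and_subset (x := x) (U := ⊤) trivial
  have hPW : P.1 ⁻¹ᵁ W = ⊤ := (hx W).2 hxW
  obtain ⟨P₀, hP₀⟩ := exists_eq_pointOf π hW P hPW
  let _ := algebraSections π W
  have hsm : Algebra.Smooth k Γ(X, W) := smooth_sections π hW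
  have hneW : Nonempty W := ⟨⟨x, hxW⟩⟩
  have hneV : Nonempty V := hne.to_subtype
  obtain ⟨b, ε, hε, hb⟩ := exists_nhds_pointOf π hW hN P₀ (hP₀ ▸ hP)
  have hgne : (X.basicOpen g : Set X).Nonempty := by
    rw [Set.nonempty_iff_ne_empty]
    intro h0
    exact hg ((basicOpen_eq_bot_iff g).1 (TopologicalSpace.Opens.ext h0))
  obtain ⟨y, hyW, hyg⟩ := nonempty_preirreducible_inter W.2 (X.basicOpen g).2 ⟨x, hxW⟩ hgne
  obtain ⟨s, hs, hys⟩ := hW.exists_basicOpen_le ⟨y, hyg⟩ hyW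
  have hs0 : s ≠ 0 := by
    rintro rfl
    rw [Scheme.basicOpen_zero] at hys
    exact hys
  obtain ⟨P₁, h1, h2⟩ := exists_near_ne_zero P₀ hs0 b hε
  have hQ : pointOf π hW P₁ ∈ N := hb P₁ h2
  obtain ⟨hQW, hval⟩ := value_pointOf π hW P₁
  obtain ⟨z, hz⟩ := preimage_eq_top_iff (pointOf π hW P₁).1
  have hD : (pointOf π hW P₁).1 ⁻¹ᵁ X.basicOpen s = ⊤ :=
    (preimage_basicOpen_iff _ hQW s).2 (by rw [hval]; exact h1)
  have hDg : (pointOf π hW P₁).1 ⁻¹ᵁ X.basicOpen g = ⊤ := (hz _).2 (hs ((hz _).1 hD))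
  have hDV : (pointOf π hW P₁).1 ⁻¹ᵁ V = ⊤ := (hz _).2 (X.basicOpen_le g ((hz _).1 hDg))
  obtain ⟨P', hP'⟩ := exists_eq_pointOf π hV (pointOf π hW P₁) hDV
  refine ⟨P', ?_, hP' ▸ hQ⟩
  obtain ⟨hPV, hval'⟩ := value_pointOf π hV P'
  rw [← hval' g]
  exact (preimage_basicOpen_iff _ hPV g).1 (hP' ▸ hDg)

/-- **The chart lemma.** -/
theorem exists_chart_point {k : Type u} [Field k] {X : Scheme.{u}}
    (π : X ⟶ Spec (.of k)) [IsIntegral X] [Smooth π] {K : Type u} [NontriviallyNormedField K]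
    [CompleteSpace K] [Algebra k K] {V : X.Opens} (hV : IsAffineOpen V) (hne : (V : Set X).Nonempty)
    {g : Γ(X, V)} (hg : g ≠ 0) {N : Set (Points π K)} (hN : IsOpen N) {P : Points π K}
    (hP : P ∈ N) :
    letI := algebraSections π V
    ∃ P' : Γ(X, V) →ₐ[k] K, P' g ≠ 0 ∧ ∃ (b : Finset Γ(X, V)) (ε : ℝ), 0 < ε ∧
      ∀ R : Γ(X, V) →ₐ[k] K, (∀ x ∈ b, ‖R x - P' x‖ < ε) → pointOf π hV R ∈ N := by
  obtain ⟨P', h1, h2⟩ := exists_move π hV hne hg hN hP
  exact ⟨P', h1, exists_nhds_pointOf π hV hN P' h2⟩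

end Pool.Agent.Lib.MP_12adaf_nt.WA
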