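import Pool.Agent.Lib.MP_12adaf_ntWA.A0

/-!
# Points of affine open sets
-/

namespace Pool.Agent.Lib.MP_12adaf_nt.WA

open AlgebraicGeometry CategoryTheory

universe u

/-- The structure morphism of an affine open set. -/
private theorem fromSpec_comp {k : Type u} [Field k] {X : Scheme.{u}} (π : X ⟶ Spec (.of k))
    {V : X.Opens} (hV : IsAffineOpen V) :
    hV.fromSpec ≫ π =
      Spec.map ((Scheme.ΓSpecIso (.of k)).inv ≫ π.appLE ⊤ V le_top) := by
  rw [Spec.map_comp, ← Scheme.isoSpec_Spec_inv, ← IsAffineOpen.fromSpec_top]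
  exact (IsAffineOpen.SpecMap_appLE_fromSpec π (isAffineOpen_top _) hV le_top).symm

/-- The morphism from `Spec K` to an open set defined by a `k`-algebra homomorphism is a morphism
over `Spec k`. -/
theorem pointOf_aux {k : Type u} [Field k] {X : Scheme.{u}} (π : X ⟶ Spec (.of k))
    {V : X.Opens} (hV : IsAffineOpen V) {K : Type u} [Field K] [Algebra k K]
    (R : letI := algebraSections π V; Γ(X, V) →ₐ[k] K) :
    (Spec.map (CommRingCat.ofHom (letI := algebraSections π V; R.toRingHom)) ≫ hV.fromSpec) ≫ π =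
      Spec.map (CommRingCat.ofHom (algebraMap k K)) := by
  let _ := algebraSections π V
  rw [Category.assoc, fromSpec_comp, ← Spec.map_comp]
  congr 1
  ext c
  exact R.commutes c

/-- The point of `X` defined by a point of an affine open set. -/
noncomputable def pointOf {k : Type u} [Field k] {X : Scheme.{u}} (π : X ⟶ Spec (.of k))
    {V : X.Opens} (hV : IsAffineOpen V) {K : Type u} [Field K] [Algebra k K]
    (R : letI := algebraSections π V; Γ(X, V) →ₐ[k] K) : Points π K :=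
  ⟨Spec.map (CommRingCat.ofHom (letI := algebraSections π V; R.toRingHom)) ≫ hV.fromSpec,
    pointOf_aux π hV R⟩

/-- Base change of points of an affine open set. -/
theorem base_pointOf {k : Type u} [Field k] {X : Scheme.{u}} (π : X ⟶ Spec (.of k))
    {V : X.Opens} (hV : IsAffineOpen V) (K : Type u) [Field K] [Algebra k K]
    (R : letI := algebraSections π V; Γ(X, V) →ₐ[k] k) :
    (pointOf π hV R).base K = pointOf π hV
      (letI := algebraSections π V; (Algebra.ofId k K).comp R) := by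
  let _ := algebraSections π V
  apply Subtype.ext
  change Spec.map (CommRingCat.ofHom (algebraMap k K)) ≫
    (Spec.map (CommRingCat.ofHom R.toRingHom) ≫ hV.fromSpec) =
      Spec.map (CommRingCat.ofHom ((Algebra.ofId k K).comp R).toRingHom) ≫ hV.fromSpec
  rw [← Category.assoc, ← Spec.map_comp]
  rfl

/-- The global sections of the morphism defined by a homomorphism to the ring of sections of an
affine open set. -/
private theorem appLE_fromSpec {X : Scheme.{u}} {V : X.Opens} (hV : IsAffineOpen V)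
    {S : CommRingCat.{u}} (φ : Γ(X, V) ⟶ S) (h : ⊤ ≤ (Spec.map φ ≫ hV.fromSpec) ⁻¹ᵁ V) :
    (Spec.map φ ≫ hV.fromSpec).appLE V ⊤ h = φ ≫ (Scheme.ΓSpecIso S).inv := by
  have e₁ : ⊤ ≤ hV.fromSpec ⁻¹ᵁ V := hV.fromSpec_preimage_self.ge
  have h1 : hV.fromSpec.appLE V ⊤ e₁ = (Scheme.ΓSpecIso Γ(X, V)).inv := by
    rw [Scheme.Hom.appLE, hV.fromSpec_app_self, Category.assoc, ← Functor.map_comp]
    have : (eqToHom hV.fromSpec_preimage_self).op ≫ (homOfLE e₁).op =
        𝟙 (Opposite.op (⊤ : (Spec Γ(X, V)).Opens)) := Subsingleton.elim _ _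
    rw [this]
    simp
  have h2 : (Spec.map φ).appLE ⊤ ⊤ le_top = (Spec.map φ).appTop := by
    rw [Scheme.Hom.appTop, Scheme.Hom.app_eq_appLE]
    rfl
  rw [← Scheme.Hom.appLE_comp_appLE (Spec.map φ) hV.fromSpec V ⊤ ⊤ e₁ le_top, h1, h2,
    Scheme.ΓSpecIso_inv_naturality]

/-- The point defined by `R` is in the affine open set, and the values are given by `R`. -/
theorem value_pointOf {k : Type u} [Field k] {X : Scheme.{u}} (π : X ⟶ Spec (.of k))
    {V : X.Opens} (hV : IsAffineOpen V) {K : Type u} [Field K] [Algebra k K]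
    (R : letI := algebraSections π V; Γ(X, V) →ₐ[k] K) :
    ∃ h : (pointOf π hV R).1 ⁻¹ᵁ V = ⊤, ∀ f : Γ(X, V), value (pointOf π hV R).1 h f = R f := by
  let _ := algebraSections π V
  have h : (pointOf π hV R).1 ⁻¹ᵁ V = ⊤ := by
    change (Spec.map (CommRingCat.ofHom R.toRingHom) ≫ hV.fromSpec) ⁻¹ᵁ V = ⊤
    rw [Scheme.Hom.comp_preimage, hV.fromSpec_preimage_self]
    rfl
  refine ⟨h, fun f => ?_⟩
  have h1 := appLE_fromSpec hV (CommRingCat.ofHom R.toRingHom) h.ge
  change (Scheme.ΓSpecIso (.of K)).hom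
    (((Spec.map (CommRingCat.ofHom R.toRingHom) ≫ hV.fromSpec).appLE V ⊤ h.ge) f) = R f
  rw [h1]
  change ((CommRingCat.ofHom R.toRingHom ≫ (Scheme.ΓSpecIso (.of K)).inv) ≫
    (Scheme.ΓSpecIso (.of K)).hom) f = R f
  rw [Category.assoc, Iso.inv_hom_id, Category.comp_id]
  rfl

/-- Every point of an affine open set is of this form. -/
theorem exists_eq_pointOf {k : Type u} [Field k] {X : Scheme.{u}} (π : X ⟶ Spec (.of k))
    {V : X.Opens} (hV : IsAffineOpen V) {K : Type u} [Field K] [Algebra k K] (P : Points π K)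
    (h : P.1 ⁻¹ᵁ V = ⊤) :
    ∃ R : (letI := algebraSections π V; Γ(X, V) →ₐ[k] K), P = pointOf π hV R := by
  let _ := algebraSections π V
  let φ : Γ(X, V) ⟶ .of K := P.1.appLE V ⊤ h.ge ≫ (Scheme.ΓSpecIso (.of K)).hom
  have h1 : Spec.map φ ≫ hV.fromSpec = P.1 := by
    have h2 := IsAffineOpen.SpecMap_appLE_fromSpec P.1 hV (isAffineOpen_top _) h.ge
    rw [Spec.map_comp, Category.assoc, h2, IsAffineOpen.fromSpec_top, Scheme.isoSpec_Spec_inv,
      ← Category.assoc, ← Spec.map_comp]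
    simp
  have h3 : (Scheme.ΓSpecIso (.of k)).inv ≫ π.appLE ⊤ V le_top ≫ φ =
      CommRingCat.ofHom (algebraMap k K) := by
    apply Spec.map_injective
    rw [← P.2, ← Category.assoc, Spec.map_comp, ← fromSpec_comp π hV, ← Category.assoc, h1]
  refine ⟨AlgHom.mk φ.hom fun c => ?_, ?_⟩
  · exact congrArg (fun g : CommRingCat.of k ⟶ CommRingCat.of K => g.hom c) h3
  · exact Subtype.ext h1.symm

/-- Values and restriction. -/
theorem value_map {K : Type u} [Field K] {X : Scheme.{u}} (P : Spec (.of K) ⟶ X)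
    {U V : X.Opens} (i : V ≤ U) (hU : P ⁻¹ᵁ U = ⊤) (hV : P ⁻¹ᵁ V = ⊤) (f : Γ(X, U)) :
    value P hV (X.presheaf.map (homOfLE i).op f) = value P hU f := by
  rw [value, value, ← CommRingCat.comp_apply (X.presheaf.map (homOfLE i).op),
    Scheme.Hom.map_appLE]

/-- The value as a ring homomorphism. -/
theorem exists_valueHom {K : Type u} [Field K] {X : Scheme.{u}} (P : Spec (.of K) ⟶ X)
    {U : X.Opens} (h : P ⁻¹ᵁ U = ⊤) : ∃ φ : Γ(X, U) →+* K, ∀ f, φ f = value P h f :=
  ⟨((P.appLE U ⊤ h.ge) ≫ (Scheme.ΓSpecIso (.of K)).hom).hom, fun _ => rfl⟩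

/-- A point of `U` is in the open set where `f` does not vanish if and only if `f(P) ≠ 0`. -/
theorem preimage_basicOpen_iff {K : Type u} [Field K] {X : Scheme.{u}} (P : Spec (.of K) ⟶ X)
    {U : X.Opens} (h : P ⁻¹ᵁ U = ⊤) (f : Γ(X, U)) :
    P ⁻¹ᵁ X.basicOpen f = ⊤ ↔ value P h f ≠ 0 := by
  have h1 := Scheme.basicOpen_appLE P ⊤ U h.ge f
  rw [top_inf_eq, basicOpen_eq_of_affine'] at h1
  rw [← h1]
  change PrimeSpectrum.basicOpen (value P h f) = ⊤ ↔ value P h f ≠ 0
  constructor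
  · intro h2 h3
    rw [h3, PrimeSpectrum.basicOpen_zero] at h2
    exact bot_ne_top h2
  · intro h2
    refine eq_top_iff.mpr fun x _ h3 => x.isPrime.ne_top ?_
    exact Ideal.eq_top_of_isUnit_mem _ h3 (isUnit_iff_ne_zero.mpr h2)

/-- The image of a point. -/
theorem preimage_eq_top_iff {K : Type u} [Field K] {X : Scheme.{u}} (P : Spec (.of K) ⟶ X) :
    ∃ x : X, ∀ U : X.Opens, P ⁻¹ᵁ U = ⊤ ↔ x ∈ U := by
  refine ⟨P (default : Spec (.of K)), fun U => ⟨fun h => ?_, fun h => ?_⟩⟩
  · have : (default : Spec (.of K)) ∈ P ⁻¹ᵁ U := by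
      rw [h]
      trivial
    exact this
  · refine eq_top_iff.mpr fun y _ => ?_
    rw [Subsingleton.elim y (default : Spec (.of K))]
    exact h

end Pool.Agent.Lib.MP_12adaf_nt.WA
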