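import Pool.Agent.Lib.MP_12adaf_ntNS.C8
import Pool.Agent.Lib.MP_12adaf_ntWA.A0

/-!
# Rings whose local points can be approximated: definition
-/

namespace Pool.Agent.Lib.MP_12adaf_nt.WA

open Pool.Agent.Lib.MP_12adaf_nt.NS

universe u

/-- Families of points of the affine variety with ring of regular functions `B` over the
completions of `k`, outside the zeros of some nonzero `g`, can be approximated by points over
`k`. -/
def Approximable (k : Type u) [Field k] [NumberField k] (B : Type u) [CommRing B]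
    [Algebra k B] : Prop :=
  ∃ g : B, g ≠ 0 ∧ ∀ P : ∀ i : Pl k, B →ₐ[k] PlC k i, (∀ i, P i g ≠ 0) →
    ∀ (S : Finset (Pl k)) (b : Finset B) (ε : ℝ), 0 < ε →
      ∃ R : B →ₐ[k] k, ∀ i ∈ S, ∀ x ∈ b, ‖algebraMap k (PlC k i) (R x) - P i x‖ < ε

end Pool.Agent.Lib.MP_12adaf_nt.WA
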