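import Pool.Agent.Lib.MP_12adaf_ntWA.A2
import Pool.Agent.Lib.MP_12adaf_ntWA.B0

/-!
# Weak approximation for smooth schemes
-/

namespace Pool.Agent.Lib.MP_12adaf_nt.WA

open AlgebraicGeometry CategoryTheory NumberField IsDedekindDomain
open Pool.Agent.Lib.MP_12adaf_nt.NS

universe u

private lemma exists_pos_le {ι : Type*} (S : Finset ι) (ε : ι → ℝ) (hε : ∀ i, 0 < ε i) :
    ∃ δ : ℝ, 0 < δ ∧ ∀ i ∈ S, δ ≤ ε i := by
  classical
  induction S using Finset.induction_on with
  | empty => exact ⟨1, one_pos, by simp⟩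
  | insert a S _ ih =>
    obtain ⟨δ, h1, h2⟩ := ih
    refine ⟨min δ (ε a), lt_min h1 (hε a), fun i hi => ?_⟩
    rcases Finset.mem_insert.1 hi with rfl | hi
    · exact min_le_right _ _
    · exact (min_le_left _ _).trans (h2 i hi)

/-- **Weak approximation for smooth schemes.**

Proof.  A nonempty open subset of the product contains a box: a family of points `x v`, `x w`, a
finite set of places and open `N v ∋ x v`, `N w ∋ x w` for them (the other factors are the whole
spaces).  For every place apply `exists_chart_point` to `V`, the element `g` of `hB`, and `N v` (or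
`Set.univ`): `P' v`, `b v`, `ε v`.  Apply `hB` to the family `P'`, the finite set of places, the union
of the `b v` and the minimum of the `ε v`: `R`, and `pointOf π hV R` is the point we want
(`base_pointOf`).  The types `PlC k (Sum.inl v)` and `v.Completion` are equal by definition, with
the same norms (see `MP_12adaf_nt/NFPlaces.lean`, `NS/C8.lean`: `algPlC`, `nontriviallyNormedPlC`,
`completePlC`, and `NS/C9.lean` for a similar translation). -/
theorem denseRange_diag {k : Type u} [Field k] [NumberField k] {X : Scheme.{u}}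
    (π : X ⟶ Spec (.of k)) [IsIntegral X] [Smooth π] {V : X.Opens} (hV : IsAffineOpen V)
    (hne : (V : Set X).Nonempty)
    (hB : letI := algebraSections π V; Approximable k Γ(X, V)) : DenseRange (diag π) := by
  classical
  let := algebraSections π V
  obtain ⟨g, hg, hB⟩ := hB
  rw [DenseRange, dense_iff_inter_open]
  rintro O hO ⟨⟨x, y⟩, hxy⟩
  obtain ⟨u₁, u₂, hu₁, hu₂, hx, hy, hsub⟩ := isOpen_prod_iff.1 hO x y hxy
  obtain ⟨I₁, N₁, hN₁, hI₁⟩ := isOpen_pi_iff.1 hu₁ x hx
  obtain ⟨I₂, N₂, hN₂, hI₂⟩ := isOpen_pi_iff.1 hu₂ y hy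
  have key1 : ∀ v : InfinitePlace k, ∃ P' : Γ(X, V) →ₐ[k] PlC k (Sum.inl v), P' g ≠ 0 ∧
      ∃ (b : Finset Γ(X, V)) (ε : ℝ), 0 < ε ∧ ∀ R : Γ(X, V) →ₐ[k] k,
        (∀ z ∈ b, ‖algebraMap k (PlC k (Sum.inl v)) (R z) - P' z‖ < ε) →
          v ∈ I₁ → (pointOf π hV R).base v.Completion ∈ N₁ v := by
    intro v
    let := nontriviallyNormedPlC (Sum.inl v : Pl k)
    have hNo : IsOpen (X := Points π v.Completion) (if v ∈ I₁ then N₁ v else Set.univ) := by
      split_ifs with h
      · exact (hN₁ v h).1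
      · exact isOpen_univ
    have hxN : x v ∈ (if v ∈ I₁ then N₁ v else Set.univ) := by
      split_ifs with h
      · exact (hN₁ v h).2
      · trivial
    obtain ⟨P', h1, b, ε, hε, h2⟩ := exists_chart_point (K := PlC k (Sum.inl v)) π hV hne hg
      (N := if v ∈ I₁ then N₁ v else Set.univ) hNo (P := x v) hxN
    refine ⟨P', h1, b, ε, hε, fun R hR hv => ?_⟩
    have h3 := h2 ((Algebra.ofId k (PlC k (Sum.inl v))).comp R) hR
    rw [if_pos hv] at h3
    rw [base_pointOf]
    exact h3
  have key2 : ∀ v : HeightOneSpectrum (𝓞 k), ∃ P' : Γ(X, V) →ₐ[k] PlC k (Sum.inr v), P' g ≠ 0 ∧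
      ∃ (b : Finset Γ(X, V)) (ε : ℝ), 0 < ε ∧ ∀ R : Γ(X, V) →ₐ[k] k,
        (∀ z ∈ b, ‖algebraMap k (PlC k (Sum.inr v)) (R z) - P' z‖ < ε) →
          v ∈ I₂ → (pointOf π hV R).base (v.adicCompletion k) ∈ N₂ v := by
    intro v
    let := nontriviallyNormedPlC (Sum.inr v : Pl k)
    have hNo : IsOpen (X := Points π (v.adicCompletion k))
        (if v ∈ I₂ then N₂ v else Set.univ) := by
      split_ifs with h
      · exact (hN₂ v h).1
      · exact isOpen_univ
    have hxN : y v ∈ (if v ∈ I₂ then N₂ v else Set.univ) := by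
      split_ifs with h
      · exact (hN₂ v h).2
      · trivial
    obtain ⟨P', h1, b, ε, hε, h2⟩ := exists_chart_point (K := PlC k (Sum.inr v)) π hV hne hg
      (N := if v ∈ I₂ then N₂ v else Set.univ) hNo (P := y v) hxN
    refine ⟨P', h1, b, ε, hε, fun R hR hv => ?_⟩
    have h3 := h2 ((Algebra.ofId k (PlC k (Sum.inr v))).comp R) hR
    rw [if_pos hv] at h3
    rw [base_pointOf]
    exact h3
  choose P₁ hP₁ b₁ ε₁ hε₁ hR₁ using key1
  choose P₂ hP₂ b₂ ε₂ hε₂ hR₂ using key2
  obtain ⟨δ₁, hδ₁, h1⟩ := exists_pos_le I₁ ε₁ hε₁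
  obtain ⟨δ₂, hδ₂, h2⟩ := exists_pos_le I₂ ε₂ hε₂
  let P : ∀ i : Pl k, Γ(X, V) →ₐ[k] PlC k i := fun i =>
    match i with
    | Sum.inl v => P₁ v
    | Sum.inr w => P₂ w
  obtain ⟨R, hR⟩ := hB P (by
    rintro (v | w)
    · exact hP₁ v
    · exact hP₂ w) (I₁.disjSum I₂) (I₁.biUnion b₁ ∪ I₂.biUnion b₂) (min δ₁ δ₂) (lt_min hδ₁ hδ₂)
  refine ⟨diag π (pointOf π hV R), hsub ⟨hI₁ fun v hv => ?_, hI₂ fun w hw => ?_⟩, ⟨_, rfl⟩⟩
  · refine hR₁ v R (fun z hz => ?_) hv
    exact (hR (Sum.inl v) (Finset.inl_mem_disjSum.2 hv) z (Finset.mem_union_left _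
      (Finset.mem_biUnion.2 ⟨v, hv, hz⟩))).trans_le ((min_le_left _ _).trans (h1 v hv))
  · refine hR₂ w R (fun z hz => ?_) hw
    exact (hR (Sum.inr w) (Finset.inr_mem_disjSum.2 hw) z (Finset.mem_union_right _
      (Finset.mem_biUnion.2 ⟨w, hw, hz⟩))).trans_le ((min_le_right _ _).trans (h2 w hw))

/-- For a nonempty affine open set the function field is a fraction field of the ring of regular
functions, compatibly with the structures of `k`-algebras, and this ring is a finitely generated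
`k`-algebra. -/
theorem exists_affine {k : Type u} [Field k] {X : Scheme.{u}} (π : X ⟶ Spec (.of k))
    [IsIntegral X] [Smooth π] : ∃ (V : X.Opens) (_ : IsAffineOpen V) (_ : (V : Set X).Nonempty)
      (_ : Algebra Γ(X, V) X.functionField),
      letI := algebraSections π V
      letI := algebraFunctionField π
      IsScalarTower k Γ(X, V) X.functionField ∧ IsFractionRing Γ(X, V) X.functionField ∧
        Algebra.FiniteType k Γ(X, V) := by
  obtain ⟨V, hV, hgV⟩ : ∃ V : X.Opens, IsAffineOpen V ∧ genericPoint X ∈ V := by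
    obtain ⟨V, hV, h1, -⟩ := exists_isAffineOpen_mem_and_subset (U := ⊤)
      (show genericPoint X ∈ (⊤ : X.Opens) from trivial)
    exact ⟨V, hV, h1⟩
  have hne : Nonempty V := ⟨⟨_, hgV⟩⟩
  refine ⟨V, hV, ⟨_, hgV⟩, inferInstance, ?_, ?_, ?_⟩
  · let := algebraSections π V
    let := algebraFunctionField π
    refine IsScalarTower.of_algebraMap_eq fun a => ?_
    change (X.presheaf.germ ⊤ (genericPoint X) trivial).hom
        (π.appTop.hom ((Scheme.ΓSpecIso (.of k)).inv.hom a)) =
      (X.germToFunctionField V).hom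
        ((X.presheaf.map (homOfLE (le_top : V ≤ ⊤)).op).hom
          (π.appTop.hom ((Scheme.ΓSpecIso (.of k)).inv.hom a)))
    exact (TopCat.Presheaf.germ_res_apply X.presheaf (homOfLE (le_top : V ≤ ⊤)) (genericPoint X)
      hgV _).symm
  · exact functionField_isFractionRing_of_isAffineOpen X V hV
  · let := algebraSections π V
    have := smooth_sections π hV
    have := Algebra.Smooth.finitePresentation (R := k) (A := Γ(X, V))
    exact Algebra.FiniteType.of_finitePresentation

end Pool.Agent.Lib.MP_12adaf_nt.WA
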