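import Pool.Agent.Lib.MP_12adaf_ntWA.B1

/-!
# Rings whose local points can be approximated: polynomial rings, stably rational fields
-/

namespace Pool.Agent.Lib.MP_12adaf_nt.WA

open Pool.Agent.Lib.MP_12adaf_nt.NS

universe u

/-- Weak approximation for affine space (`denseRange_places`, as in the proof of `NS.exists_global`;
`g = 1`). -/
theorem approximable_mvPolynomial (k : Type u) [Field k] [NumberField k] (n : ℕ) :
    Approximable k (MvPolynomial (Fin n) k) := by
  classical
  refine ⟨1, one_ne_zero, fun P _ S b ε hε => ?_⟩
  let f : S → Pl k := Subtype.val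
  have hf : Function.Injective f := Subtype.val_injective
  have hdense : DenseRange (Pi.map fun (_ : Fin n) (q : k) (i : S) => plEmb k (f i) q) :=
    DenseRange.piMap fun _ => denseRange_places k f hf
  have hcont : ∀ (i : Pl k) (x : MvPolynomial (Fin n) k),
      Continuous fun t : Fin n → PlC k i => MvPolynomial.aeval t x := by
    intro i x
    have h := MvPolynomial.continuous_eval (MvPolynomial.map (algebraMap k (PlC k i)) x)
    refine h.congr fun t => ?_
    rw [MvPolynomial.eval_map, MvPolynomial.aeval_def]
  let V : Set (Fin n → ∀ i : S, PlC k (f i)) :=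
    ⋂ i : S, ⋂ x ∈ b, {z | ‖MvPolynomial.aeval (fun j => z j i) x - P i x‖ < ε}
  have hV : IsOpen V := by
    refine isOpen_iInter_of_finite fun i => isOpen_biInter_finset fun x _ => ?_
    refine isOpen_lt ?_ continuous_const
    refine Continuous.norm (Continuous.sub ?_ continuous_const)
    exact (hcont (f i) x).comp (continuous_pi fun j => (continuous_apply i).comp
      (continuous_apply j))
  have hne : V.Nonempty := by
    refine ⟨fun j i => P i (MvPolynomial.X j), ?_⟩
    simp only [V, Set.mem_iInter, Set.mem_ofPred_eq]
    intro i x _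
    have h : MvPolynomial.aeval (fun j => P i (MvPolynomial.X j)) x = P i x :=
      (DFunLike.congr_fun (MvPolynomial.aeval_unique (P (i : Pl k))) x).symm
    rw [h, sub_self, norm_zero]
    exact hε
  obtain ⟨t, ht⟩ := hdense.exists_mem_open hV hne
  refine ⟨MvPolynomial.aeval t, fun i hi x hx => ?_⟩
  simp only [V, Set.mem_iInter, Set.mem_ofPred_eq] at ht
  have h := ht ⟨i, hi⟩ x hx
  have h2 : algebraMap k (PlC k i) (MvPolynomial.aeval t x) =
      MvPolynomial.aeval (fun j => algebraMap k (PlC k i) (t j)) x :=
    (MvPolynomial.aeval_algebraMap_apply (PlC k i) t x).symm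
  rw [h2]
  have h3 : (fun j => algebraMap k (PlC k i) (t j)) = fun j => plEmb k i (t j) :=
    funext fun j => algebraMap_plC i (t j)
  rw [h3]
  exact h

/-- Let `g` be a nonzero coefficient of the element for `B[t]`; a point of `B` with `P g ≠ 0` extends
to a point of `B[t]` outside the zeros of that element, as the completions are infinite. -/
theorem Approximable.of_mvPolynomial {k B : Type u} [Field k] [NumberField k] [CommRing B]
    [Algebra k B] (m : ℕ) (h : Approximable k (MvPolynomial (Fin m) B)) :
    Approximable k B := by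
  classical
  obtain ⟨G, hG, hG'⟩ := h
  obtain ⟨s, hs⟩ := MvPolynomial.ne_zero_iff.1 hG
  refine ⟨G.coeff s, hs, fun P hP S b ε hε => ?_⟩
  have h1 : ∀ i, ∃ t : Fin m → PlC k i,
      MvPolynomial.eval t (MvPolynomial.map (P i : B →+* PlC k i) G) ≠ 0 := by
    intro i
    by_contra! hcon
    have h2 : MvPolynomial.map (P i : B →+* PlC k i) G = 0 :=
      MvPolynomial.funext fun t => by rw [hcon t, map_zero]
    apply hP i
    have h3 := congrArg (MvPolynomial.coeff s) h2
    rw [MvPolynomial.coeff_map, MvPolynomial.coeff_zero] at h3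
    exact h3
  choose t ht using h1
  let Q : ∀ i, MvPolynomial (Fin m) B →ₐ[k] PlC k i := fun i =>
    { MvPolynomial.eval₂Hom (P i : B →+* PlC k i) (t i) with
      commutes' := fun c => by
        change MvPolynomial.eval₂Hom (P i : B →+* PlC k i) (t i) (algebraMap k _ c) = _
        rw [IsScalarTower.algebraMap_apply k B (MvPolynomial (Fin m) B),
          MvPolynomial.algebraMap_eq, MvPolynomial.eval₂Hom_C]
        exact (P i).commutes c }
  have hQ : ∀ i x, Q i x = MvPolynomial.eval₂Hom (P i : B →+* PlC k i) (t i) x := fun i x => rfl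
  obtain ⟨R, hR⟩ := hG' Q (fun i => by
    rw [hQ, MvPolynomial.coe_eval₂Hom, ← MvPolynomial.eval_map]
    exact ht i) S (b.image MvPolynomial.C) ε hε
  refine ⟨R.comp (IsScalarTower.toAlgHom k B (MvPolynomial (Fin m) B)), fun i hi x hx => ?_⟩
  have h := hR i hi (MvPolynomial.C x) (Finset.mem_image_of_mem _ hx)
  rw [hQ, MvPolynomial.eval₂Hom_C] at h
  exact h

/-- `FractionRing (MvPolynomial (Fin m) F)` is a fraction field of `MvPolynomial (Fin m) B` and, by the
isomorphism, of `MvPolynomial (Fin n) k`. -/
theorem approximable_of_isStablyRational {k B F : Type u} [Field k] [NumberField k] [CommRing B]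
    [Field F] [Algebra k B] [Algebra k F] [Algebra B F] [IsScalarTower k B F]
    [IsFractionRing B F] [Algebra.FiniteType k B] (h : IsStablyRational k F) :
    Approximable k B := by
  obtain ⟨m, n, ⟨e⟩⟩ := h
  have : IsDomain B := Function.Injective.isDomain (algebraMap B F) (IsFractionRing.injective B F)
  let F' := FractionRing (MvPolynomial (Fin m) F)
  let algA : Algebra (MvPolynomial (Fin n) k) F' :=
    ((e.symm : FractionRing (MvPolynomial (Fin n) k) →+* F').comp
      (algebraMap (MvPolynomial (Fin n) k) (FractionRing (MvPolynomial (Fin n) k)))).toAlgebra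
  have towA : IsScalarTower k (MvPolynomial (Fin n) k) F' := by
    refine IsScalarTower.of_algebraMap_eq fun x => ?_
    change _ = e.symm (algebraMap _ _ (algebraMap k _ x))
    rw [← IsScalarTower.algebraMap_apply, e.symm.commutes]
  have frA : IsFractionRing (MvPolynomial (Fin n) k) F' := by
    have : FaithfulSMul (MvPolynomial (Fin n) k) F' := by
      rw [faithfulSMul_iff_algebraMap_injective]
      exact e.symm.injective.comp (IsFractionRing.injective _ _)
    refine IsFractionRing.of_field _ _ fun z => ?_
    obtain ⟨x, y, -, hxy⟩ := IsFractionRing.div_surjective (A := MvPolynomial (Fin n) k) (e z)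
    refine ⟨x, y, ?_⟩
    apply e.injective
    change e z = e (e.symm _ / e.symm _)
    rw [map_div₀, e.apply_symm_apply, e.apply_symm_apply]
    exact hxy.symm
  let algB : Algebra (MvPolynomial (Fin m) B) F' :=
    ((algebraMap (MvPolynomial (Fin m) F) F').comp
      (MvPolynomial.map (algebraMap B F))).toAlgebra
  have towB : IsScalarTower k (MvPolynomial (Fin m) B) F' := by
    refine IsScalarTower.of_algebraMap_eq fun x => ?_
    change _ = algebraMap (MvPolynomial (Fin m) F) F'
      (MvPolynomial.map (algebraMap B F) (algebraMap k _ x))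
    rw [IsScalarTower.algebraMap_apply k B (MvPolynomial (Fin m) B), MvPolynomial.algebraMap_eq,
      MvPolynomial.map_C, ← IsScalarTower.algebraMap_apply k B F,
      IsScalarTower.algebraMap_apply k (MvPolynomial (Fin m) F) F',
      IsScalarTower.algebraMap_apply k F (MvPolynomial (Fin m) F), MvPolynomial.algebraMap_eq]
  have frB : IsFractionRing (MvPolynomial (Fin m) B) F' := by
    have hinj : Function.Injective (algebraMap (MvPolynomial (Fin m) B) F') :=
      (IsFractionRing.injective (MvPolynomial (Fin m) F) F').comp
        (MvPolynomial.map_injective _ (IsFractionRing.injective B F))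
    have : FaithfulSMul (MvPolynomial (Fin m) B) F' := by
      rw [faithfulSMul_iff_algebraMap_injective]
      exact hinj
    have key : ∀ p : MvPolynomial (Fin m) F, ∃ x y : MvPolynomial (Fin m) B, y ≠ 0 ∧
        algebraMap (MvPolynomial (Fin m) F) F' p =
          algebraMap (MvPolynomial (Fin m) B) F' x / algebraMap (MvPolynomial (Fin m) B) F' y := by
      intro p
      let : Algebra (MvPolynomial (Fin m) B) (MvPolynomial (Fin m) F) :=
        MvPolynomial.algebraMvPolynomial
      have : IsLocalization ((nonZeroDivisors B).map (MvPolynomial.C (σ := Fin m)))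
          (MvPolynomial (Fin m) F) := MvPolynomial.isLocalization (nonZeroDivisors B) F
      obtain ⟨⟨x, ⟨y, c, hc, rfl⟩⟩, hxy⟩ :=
        IsLocalization.surj ((nonZeroDivisors B).map (MvPolynomial.C (σ := Fin m))) p
      have hy : (MvPolynomial.C c : MvPolynomial (Fin m) B) ≠ 0 := fun h0 =>
        nonZeroDivisors.ne_zero hc (MvPolynomial.C_injective _ _ (by rw [h0, map_zero]))
      refine ⟨x, MvPolynomial.C c, hy, ?_⟩
      have h1 : algebraMap (MvPolynomial (Fin m) B) F' (MvPolynomial.C c) ≠ 0 := fun h0 =>
        hy (hinj (by rw [h0, map_zero]))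
      rw [eq_div_iff h1]
      have h2 := congrArg (algebraMap (MvPolynomial (Fin m) F) F') hxy
      rw [map_mul] at h2
      exact h2
    refine IsFractionRing.of_field _ _ fun z => ?_
    obtain ⟨p, q, -, rfl⟩ := IsFractionRing.div_surjective (A := MvPolynomial (Fin m) F) z
    obtain ⟨x, y, hy, h1⟩ := key p
    obtain ⟨x', y', hy', h2⟩ := key q
    refine ⟨x * y', y * x', ?_⟩
    rw [h1, h2, map_mul, map_mul]
    exact div_div_div_eq _ _ _ _
  have ftB : Algebra.FiniteType k (MvPolynomial (Fin m) B) :=
    Algebra.FiniteType.trans (S := B) inferInstance inferInstance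
  have h1 : Approximable k (MvPolynomial (Fin m) B) :=
    Approximable.of_birational (A := MvPolynomial (Fin n) k) (F := F')
      (approximable_mvPolynomial k n)
  exact h1.of_mvPolynomial m

end Pool.Agent.Lib.MP_12adaf_nt.WA
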