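import Pool.Agent.Lib.MP_12adaf_ntWA.A3
import Pool.Agent.Lib.MP_12adaf_ntWA.B2

/-!
# Weak approximation for smooth schemes with stably rational function field
-/

namespace Pool.Agent.Lib.MP_12adaf_nt.WA

open AlgebraicGeometry CategoryTheory NumberField IsDedekindDomain
open Pool.Agent.Lib.MP_12adaf_nt.NS

universe u

/-- Weak approximation for smooth integral schemes over a number field whose function field is
stably rational. -/
theorem denseRange_diag_of_isStablyRational {k : Type u} [Field k] [NumberField k]
    {X : Scheme.{u}} (π : X ⟶ Spec (.of k)) [IsIntegral X] [Smooth π]
    (h : letI := algebraFunctionField π; IsStablyRational k X.functionField) :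
    DenseRange (diag π) := by
  obtain ⟨V, hV, hne, _, h1, h2, h3⟩ := exists_affine π
  let := algebraSections π V
  let := algebraFunctionField π
  exact denseRange_diag π hV hne (approximable_of_isStablyRational h)

end Pool.Agent.Lib.MP_12adaf_nt.WA
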