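import Pool.Agent.Lib.MP_12adaf_ntWA.A4
import Pool.Agent.Lib.MP_12adaf_ntNS.N6

/-!
# Weak approximation for smooth schemes: stable birational invariance
-/

namespace Pool.Agent.Lib.MP_12adaf_nt.WA

open AlgebraicGeometry CategoryTheory NumberField IsDedekindDomain
open Pool.Agent.Lib.MP_12adaf_nt.NS

universe u

/-- The extensions `F` and `F'` of `k` are stably isomorphic: for some `m`, `n` the fields of
rational functions `F(y_1, …, y_m)` and `F'(t_1, …, t_n)` are `k`-isomorphic. -/
def StablyIso (k F F' : Type*) [Field k] [Field F] [Field F'] [Algebra k F] [Algebra k F'] :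
    Prop :=
  ∃ m n : ℕ, Nonempty (FractionRing (MvPolynomial (Fin m) F) ≃ₐ[k]
    FractionRing (MvPolynomial (Fin n) F'))

/-- Fields of rational functions. -/
theorem isStablyRational_frac_iff {k F : Type*} [Field k] [Field F] [Algebra k F] (m : ℕ) :
    IsStablyRational k F ↔ IsStablyRational k (FractionRing (MvPolynomial (Fin m) F)) := by
  have hind : AlgebraicIndependent F
      (algebraMap (MvPolynomial (Fin m) F) (FractionRing (MvPolynomial (Fin m) F)) ∘
        MvPolynomial.X) := by
    have h1 := (MvPolynomial.algebraicIndependent_X (Fin m) F).map'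
      (f := IsScalarTower.toAlgHom F (MvPolynomial (Fin m) F)
        (FractionRing (MvPolynomial (Fin m) F)))
      (IsFractionRing.injective (MvPolynomial (Fin m) F)
        (FractionRing (MvPolynomial (Fin m) F)))
    exact h1
  refine stablyRational_iff' hind ?_
  rw [eq_top_iff]
  intro z _
  set S := IntermediateField.adjoin F (Set.range
    (algebraMap (MvPolynomial (Fin m) F) (FractionRing (MvPolynomial (Fin m) F)) ∘
        MvPolynomial.X)) with hS
  have h3 : ∀ p : MvPolynomial (Fin m) F, algebraMap _ (FractionRing (MvPolynomial (Fin m) F)) p ∈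
      S := by
    intro p
    induction p using MvPolynomial.induction_on with
    | C a =>
      have : algebraMap (MvPolynomial (Fin m) F) (FractionRing (MvPolynomial (Fin m) F))
          (MvPolynomial.C a) = algebraMap F (FractionRing (MvPolynomial (Fin m) F)) a :=
        (IsScalarTower.algebraMap_apply F (MvPolynomial (Fin m) F) _ a).symm
      rw [this]
      exact S.algebraMap_mem a
    | add p q hp hq => rw [map_add]; exact S.add_mem hp hq
    | mul_X p i hp =>
      rw [map_mul]
      exact S.mul_mem hp (IntermediateField.subset_adjoin _ _ ⟨i, rfl⟩)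
  obtain ⟨p, q, -, rfl⟩ := IsFractionRing.div_surjective (MvPolynomial (Fin m) F) z
  exact S.div_mem (h3 p) (h3 q)

theorem StablyIso.isStablyRational {k F F' : Type*} [Field k] [Field F] [Field F'] [Algebra k F]
    [Algebra k F'] (h : StablyIso k F F') (h' : IsStablyRational k F') : IsStablyRational k F := by
  obtain ⟨m, n, ⟨e⟩⟩ := h
  rw [isStablyRational_frac_iff m]
  rw [isStablyRational_frac_iff n] at h'
  exact h'.of_equiv e.symm

/-- Weak approximation for smooth integral schemes over a number field whose function field is
stably isomorphic to a stably rational extension. -/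
theorem denseRange_diag_of_stablyIso {k : Type u} {F : Type*} [Field k] [NumberField k] [Field F]
    [Algebra k F] (hF : IsStablyRational k F) {X : Scheme.{u}} (π : X ⟶ Spec (.of k))
    [IsIntegral X] [Smooth π]
    (h : letI := algebraFunctionField π; StablyIso k X.functionField F) :
    DenseRange (diag π) := by
  let := algebraFunctionField π
  exact denseRange_diag_of_isStablyRational π (StablyIso.isStablyRational h hF)

end Pool.Agent.Lib.MP_12adaf_nt.WA
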