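import Pool.Agent.Lib.MP_12adaf_ntWA.B0

/-!
# Rings whose local points can be approximated: birational invariance
-/

namespace Pool.Agent.Lib.MP_12adaf_nt.WA

open Pool.Agent.Lib.MP_12adaf_nt.NS

universe u

/-- The elements of `A` are the quotients of elements of `B` by the powers of one element. -/
private lemma B1_exists_den {k A B F : Type u} [Field k] [CommRing A] [CommRing B] [Field F]
    [Algebra k A] [Algebra k B] [Algebra k F] [Algebra A F] [Algebra B F] [IsScalarTower k A F]
    [IsScalarTower k B F] [IsFractionRing B F] [Algebra.FiniteType k A] :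
    ∃ s : B, algebraMap B F s ≠ 0 ∧ ∀ a : A, ∃ (n : ℕ) (b : B),
      algebraMap B F b = algebraMap A F a * algebraMap B F s ^ n := by
  classical
  have : Nontrivial B := (algebraMap B F).domain_nontrivial
  obtain ⟨t, ht⟩ := (Algebra.FiniteType.out : (⊤ : Subalgebra k A).FG)
  have h1 : ∀ a : A, ∃ p : B × B, algebraMap B F p.2 ≠ 0 ∧
      algebraMap B F p.1 = algebraMap A F a * algebraMap B F p.2 := by
    intro a
    obtain ⟨x, y, hy, hxy⟩ := IsFractionRing.div_surjective (A := B) (algebraMap A F a)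
    have hy0 : algebraMap B F y ≠ 0 := (map_ne_zero_iff _ (IsFractionRing.injective B F)).2 (nonZeroDivisors.ne_zero hy)
    refine ⟨(x, y), hy0, ?_⟩
    rw [← hxy]
    field_simp
  choose p hp0 hp using h1
  refine ⟨∏ a ∈ t, (p a).2, ?_, ?_⟩
  · rw [map_prod]
    exact Finset.prod_ne_zero_iff.2 fun a _ => hp0 a
  · intro a
    have ha : a ∈ Algebra.adjoin k (t : Set A) := by rw [ht]; trivial
    induction ha using Algebra.adjoin_induction with
    | mem x hx =>
      refine ⟨1, (p x).1 * ∏ y ∈ t.erase x, (p y).2, ?_⟩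
      rw [pow_one, map_mul, hp, ← Finset.mul_prod_erase t (fun y => (p y).2) hx, map_mul]
      ring
    | algebraMap c =>
      refine ⟨0, algebraMap k B c, ?_⟩
      rw [pow_zero, mul_one, ← IsScalarTower.algebraMap_apply, ← IsScalarTower.algebraMap_apply]
    | add x y _ _ hx hy =>
      obtain ⟨n, b, hb⟩ := hx
      obtain ⟨m, c, hc⟩ := hy
      refine ⟨n + m, b * (∏ a ∈ t, (p a).2) ^ m + c * (∏ a ∈ t, (p a).2) ^ n, ?_⟩
      rw [map_add, map_mul, map_mul, map_pow, map_pow, hb, hc, map_add, pow_add]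
      ring
    | mul x y _ _ hx hy =>
      obtain ⟨n, b, hb⟩ := hx
      obtain ⟨m, c, hc⟩ := hy
      refine ⟨n + m, b * c, ?_⟩
      rw [map_mul, hb, hc, map_mul, pow_add]
      ring

/-- Extension of a point of `B` to a point of `A`. -/
private lemma B1_extend {k A B F L : Type u} [Field k] [CommRing A] [CommRing B] [Field F]
    [Field L] [Algebra k A] [Algebra k B] [Algebra k F] [Algebra k L] [Algebra A F] [Algebra B F]
    [IsScalarTower k A F] [IsScalarTower k B F] [IsFractionRing B F] {s : B}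
    (H : ∀ a : A, ∃ (n : ℕ) (b : B),
      algebraMap B F b = algebraMap A F a * algebraMap B F s ^ n)
    (P : B →ₐ[k] L) (hP : P s ≠ 0) :
    ∃ Q : A →ₐ[k] L, ∀ (a : A) (n : ℕ) (b : B),
      algebraMap B F b = algebraMap A F a * algebraMap B F s ^ n → P b = Q a * P s ^ n := by
  have hinj : Function.Injective (algebraMap B F) := IsFractionRing.injective B F
  have key : ∀ (a : A) (n m : ℕ) (b c : B),
      algebraMap B F b = algebraMap A F a * algebraMap B F s ^ n →
      algebraMap B F c = algebraMap A F a * algebraMap B F s ^ m →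
      P b / P s ^ n = P c / P s ^ m := by
    intro a n m b c hb hc
    have h1 : b * s ^ m = c * s ^ n := by
      apply hinj
      rw [map_mul, map_mul, map_pow, map_pow, hb, hc]
      ring
    have h2 := congrArg P h1
    rw [map_mul, map_mul, map_pow, map_pow] at h2
    rw [div_eq_div_iff (pow_ne_zero _ hP) (pow_ne_zero _ hP)]
    exact h2
  choose N D hD using H
  have key' : ∀ (a : A) (n : ℕ) (b : B),
      algebraMap B F b = algebraMap A F a * algebraMap B F s ^ n →
      P (D a) / P s ^ N a = P b / P s ^ n := fun a n b hb => key a _ _ _ _ (hD a) hb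
  refine ⟨{ toFun := fun a => P (D a) / P s ^ N a
            map_one' := ?_
            map_mul' := ?_
            map_zero' := ?_
            map_add' := ?_
            commutes' := ?_ }, ?_⟩
  · rw [key' 1 0 1 (by simp)]
    simp
  · intro x y
    rw [key' (x * y) (N x + N y) (D x * D y) (by
      rw [map_mul, hD, hD, map_mul, pow_add]
      ring), map_mul, pow_add, div_mul_div_comm]
  · show P (D 0) / P s ^ N 0 = 0
    rw [key' 0 0 0 (by simp)]
    simp
  · intro x y
    show P (D (x + y)) / P s ^ N (x + y) = P (D x) / P s ^ N x + P (D y) / P s ^ N y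
    rw [key' (x + y) (N x + N y) (D x * s ^ N y + D y * s ^ N x) (by
      rw [map_add, map_mul, map_mul, map_pow, map_pow, hD, hD, map_add, pow_add]
      ring), map_add, map_mul, map_mul, map_pow, map_pow, pow_add]
    have h1 : P s ^ N x ≠ 0 := pow_ne_zero _ hP
    have h2 : P s ^ N y ≠ 0 := pow_ne_zero _ hP
    field_simp
  · intro c
    show P (D (algebraMap k A c)) / P s ^ N (algebraMap k A c) = algebraMap k L c
    rw [key' (algebraMap k A c) 0 (algebraMap k B c) (by
      rw [pow_zero, mul_one, ← IsScalarTower.algebraMap_apply, ← IsScalarTower.algebraMap_apply]),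
      pow_zero, div_one, AlgHom.commutes]
  · intro a n b hb
    show P b = P (D a) / P s ^ N a * P s ^ n
    rw [key' a n b hb, div_mul_cancel₀ _ (pow_ne_zero _ hP)]

/-- **Birational invariance.**  Proof: `a₁, …, a_m` generate `A` over `k`, `b₁, …, b_n` generate `B`;
in `F`, `a_j = α_j / s` with `α_j, s ∈ B`, `s ≠ 0`, and `b_i = β_i / r` with `β_i, r ∈ A`, `r ≠ 0`.  Let
`g_A` be the element for `A`.  So `A ⊆ B[1/s]`, and `r = r' / s ^ N`, `g_A = g' / s ^ N` with nonzero
`r', g' ∈ B`.  Let `g_B = s r' g'`.  Given points `P i` of `B` with `P i g_B ≠ 0`, they extend to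
`B[1/s]` and restrict to points `Q i` of `A` with `Q i g_A ≠ 0`, `Q i r ≠ 0`.  For `x ∈ b`,
`x = γ_x / r ^ M` with `γ_x ∈ A`.  Choose `R₀ : A →ₐ[k] k` near the `Q i`, `i ∈ S ∪ {one more place}`,
on `r` and the `γ_x`; then `R₀ r ≠ 0`, so `R₀` extends to `A[1/r] ⊇ B`; let `R` be the restriction to
`B`: `R x = R₀ γ_x / R₀ r ^ M` is near `Q i γ_x / Q i r ^ M = P i x`.  (The embeddings of the
subrings in `F` are injective; e.g. use `IsLocalization.Away` models, or `IsLocalization.lift` for the
submonoid of the elements of `B` not killed by `P i`, that is localization at the kernel of `P i`: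
`Q i a = P i (num) / P i (den)`.) -/
theorem Approximable.of_birational {k A B F : Type u} [Field k] [NumberField k] [CommRing A]
    [CommRing B] [Field F] [Algebra k A] [Algebra k B] [Algebra k F] [Algebra A F] [Algebra B F]
    [IsScalarTower k A F] [IsScalarTower k B F] [IsFractionRing A F] [IsFractionRing B F]
    [Algebra.FiniteType k A] [Algebra.FiniteType k B] (h : Approximable k A) :
    Approximable k B := by
  classical
  obtain ⟨gA, hgA, hA⟩ := h
  obtain ⟨s, hs, Hs⟩ := B1_exists_den (k := k) (A := A) (B := B) (F := F)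
  obtain ⟨r, hr, Hr⟩ := B1_exists_den (k := k) (A := B) (B := A) (F := F)
  obtain ⟨n1, g', hg'⟩ := Hs gA
  obtain ⟨n2, r', hr'⟩ := Hs r
  have hinj : Function.Injective (algebraMap B F) := IsFractionRing.injective B F
  have hgA0 : algebraMap A F gA ≠ 0 := by
    rw [Ne, map_eq_zero_iff _ (IsFractionRing.injective A F)]
    exact hgA
  refine ⟨s * (g' * r'), ?_, fun P hP S b ε hε => ?_⟩
  · intro h0
    have h1 := congrArg (algebraMap B F) h0
    rw [map_mul, map_mul, hg', hr', map_zero] at h1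
    have := mul_ne_zero hs (mul_ne_zero (mul_ne_zero hgA0 (pow_ne_zero n1 hs))
      (mul_ne_zero hr (pow_ne_zero n2 hs)))
    exact this h1
  have hPs : ∀ i, P i s ≠ 0 := fun i h0 => hP i (by rw [map_mul, h0, zero_mul])
  have hPg : ∀ i, P i g' ≠ 0 := fun i h0 => hP i (by rw [map_mul, map_mul, h0, zero_mul, mul_zero])
  have hPr : ∀ i, P i r' ≠ 0 := fun i h0 => hP i (by rw [map_mul, map_mul, h0, mul_zero, mul_zero])
  choose Q hQ using fun i => B1_extend (F := F) Hs (P i) (hPs i)
  have hQg : ∀ i, Q i gA ≠ 0 := fun i h0 => hPg i (by rw [hQ i gA n1 g' hg', h0, zero_mul])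
  have hQr : ∀ i, Q i r ≠ 0 := fun i h0 => hPr i (by rw [hQ i r n2 r' hr', h0, zero_mul])
  choose M γ hγ using Hr
  have hQγ : ∀ i x, Q i (γ x) = P i x * Q i r ^ M x := by
    intro i x
    obtain ⟨n, c, hc⟩ := Hs (γ x)
    have h1 : c * s ^ (n2 * M x) = x * r' ^ M x * s ^ n := by
      apply hinj
      rw [map_mul, map_mul, map_mul, map_pow, map_pow, map_pow, hc, hγ, hr', mul_pow, ← pow_mul]
      ring
    have h2 := congrArg (P i) h1
    rw [map_mul, map_mul, map_mul, map_pow, map_pow, map_pow, hQ i _ n c hc, hQ i r n2 r' hr',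
      mul_pow, ← pow_mul] at h2
    have h3 : P i s ^ n * P i s ^ (n2 * M x) ≠ 0 :=
      mul_ne_zero (pow_ne_zero _ (hPs i)) (pow_ne_zero _ (hPs i))
    refine mul_right_cancel₀ h3 ?_
    linear_combination h2
  obtain ⟨i0⟩ : Nonempty (Pl k) := ⟨.inl (Classical.arbitrary _)⟩
  have hδ : ∀ᶠ δ : ℝ in nhdsWithin 0 (Set.Ioi 0), 0 < δ ∧ δ ≤ ‖Q i0 r‖ ∧ ∀ i ∈ S, ∀ x ∈ b,
      ∀ u v : PlC k i, ‖u - Q i (γ x)‖ < δ → ‖v - Q i r‖ < δ →
        ‖u / v ^ M x - Q i (γ x) / Q i r ^ M x‖ < ε := by
    refine Filter.Eventually.and (eventually_mem_nhdsWithin) (Filter.Eventually.and ?_ ?_)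
    · filter_upwards [Ioo_mem_nhdsGT (norm_pos_iff.2 (hQr i0))] with δ hδ using hδ.2.le
    · refine (Filter.eventually_all_finset S).2 fun i _ => (Filter.eventually_all_finset b).2
        fun x _ => ?_
      have hcont : ContinuousAt (fun p : PlC k i × PlC k i => p.1 / p.2 ^ M x)
          (Q i (γ x), Q i r) :=
        continuousAt_fst.div (continuousAt_snd.pow _) (pow_ne_zero _ (hQr i))
      obtain ⟨δ₀, hδ₀, hc⟩ := Metric.continuousAt_iff.1 hcont ε hε
      filter_upwards [Ioo_mem_nhdsGT hδ₀] with δ hδ u v hu hv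
      have h1 : dist ((u, v) : PlC k i × PlC k i) (Q i (γ x), Q i r) < δ₀ := by
        rw [Prod.dist_eq, max_lt_iff, dist_eq_norm, dist_eq_norm]
        exact ⟨hu.trans hδ.2, hv.trans hδ.2⟩
      have h2 := hc h1
      rw [dist_eq_norm] at h2
      exact h2
  obtain ⟨δ, hδ0, hδr, hδ⟩ := hδ.exists
  obtain ⟨R₀, hR₀⟩ := hA Q hQg (insert i0 S) (insert r (b.image γ)) δ hδ0
  have hR₀r : R₀ r ≠ 0 := by
    intro h0
    have h1 := hR₀ i0 (Finset.mem_insert_self _ _) r (Finset.mem_insert_self _ _)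
    rw [h0, map_zero, zero_sub, norm_neg] at h1
    exact absurd h1 (not_lt.2 hδr)
  obtain ⟨R, hR⟩ := B1_extend (F := F) (L := k) (s := r) (fun x => ⟨M x, γ x, hγ x⟩) R₀ hR₀r
  refine ⟨R, fun i hi x hx => ?_⟩
  have h1 : R x = R₀ (γ x) / R₀ r ^ M x := by
    rw [hR x (M x) (γ x) (hγ x), mul_div_cancel_right₀ _ (pow_ne_zero _ hR₀r)]
  have h2 : P i x = Q i (γ x) / Q i r ^ M x := by
    rw [hQγ, mul_div_cancel_right₀ _ (pow_ne_zero _ (hQr i))]
  rw [h1, h2, map_div₀, map_pow]
  exact hδ i hi x hx _ _ (hR₀ i (Finset.mem_insert_of_mem hi) _ (Finset.mem_insert_of_mem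
    (Finset.mem_image_of_mem _ hx))) (hR₀ i (Finset.mem_insert_of_mem hi) _
    (Finset.mem_insert_self _ _))

end Pool.Agent.Lib.MP_12adaf_nt.WA
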