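import Pool.Agent.Lib.MP_12adaf_nt.HM.V8
import Pool.Agent.Lib.MP_12adaf_nt.TF.NF
import Pool.Agent.Lib.MP_12adaf_ntWA.B0

/-!
# Rings whose local points can be approximated: polynomials with a given trace form
-/

namespace Pool.Agent.Lib.MP_12adaf_nt.WA

open Polynomial Pool.Agent.Lib.MP_12adaf_nt.NS Pool.Agent.Lib.MP_12adaf_nt.TF

universe u

/-- The coordinates of a point of `U_Q`: the coefficients of `P` and the entries of `M`. -/
def coords {F : Type*} [Field F] {n : ℕ} (P : F[X]) (M : Matrix (Fin n) (Fin n) F) :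
    Fin n ⊕ Fin n × Fin n → F :=
  Sum.elim (fun i => P.coeff i) fun p => M p.1 p.2

/-- The monic polynomial with given lower coefficients. -/
private noncomputable def b3P {A : Type*} [CommRing A] {n : ℕ}
    (y : Fin n ⊕ Fin n × Fin n → A) : A[X] :=
  X ^ n + ∑ i : Fin n, C (y (Sum.inl i)) * X ^ (i : ℕ)

/-- The matrix with given entries. -/
private def b3M {A : Type*} [CommRing A] {n : ℕ}
    (y : Fin n ⊕ Fin n × Fin n → A) : Matrix (Fin n) (Fin n) A :=
  Matrix.of fun a b => y (Sum.inr (a, b))

private lemma b3P_monic {A : Type*} [CommRing A] {n : ℕ} (y : Fin n ⊕ Fin n × Fin n → A) :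
    (b3P y).Monic :=
  monic_X_pow_add (degree_sum_fin_lt fun i => y (Sum.inl i))

private lemma b3P_natDegree {A : Type*} [CommRing A] [Nontrivial A] {n : ℕ}
    (y : Fin n ⊕ Fin n × Fin n → A) : (b3P y).natDegree = n := by
  refine natDegree_eq_of_degree_eq_some ?_
  rw [b3P, degree_add_eq_left_of_degree_lt, degree_X_pow]
  rw [degree_X_pow]
  exact degree_sum_fin_lt fun i => y (Sum.inl i)

private lemma b3P_coeff {A : Type*} [CommRing A] {n : ℕ} (y : Fin n ⊕ Fin n × Fin n → A)
    (i : Fin n) : (b3P y).coeff i = y (Sum.inl i) := by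
  rw [b3P, coeff_add, coeff_X_pow, if_neg (Nat.ne_of_lt i.2), zero_add, finsetSum_coeff,
    Finset.sum_eq_single i]
  · simp
  · intro j _ hj
    rw [coeff_C_mul_X_pow, if_neg]
    exact fun h => hj (Fin.ext h.symm)
  · simp

private lemma b3P_eq {F : Type*} [Field F] {n : ℕ} {P : F[X]} {M : Matrix (Fin n) (Fin n) F}
    (hP : P.Monic) (hn : P.natDegree = n) : b3P (coords P M) = P := by
  ext m
  rcases lt_trichotomy m n with h | h | h
  · exact b3P_coeff (coords P M) ⟨m, h⟩
  · have h1 := (b3P_monic (coords P M)).coeff_natDegree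
    have h2 := hP.coeff_natDegree
    rw [b3P_natDegree] at h1
    rw [hn] at h2
    rw [h, h1, h2]
  · rw [coeff_eq_zero_of_natDegree_lt (by rw [b3P_natDegree]; exact h),
      coeff_eq_zero_of_natDegree_lt (by rw [hn]; exact h)]

private lemma b3P_map {A B : Type*} [CommRing A] [CommRing B] {n : ℕ} (φ : A →+* B)
    (y : Fin n ⊕ Fin n × Fin n → A) : (b3P y).map φ = b3P fun j => φ (y j) := by
  simp [b3P, Polynomial.map_sum, Polynomial.map_add]

private lemma b3M_map {A B : Type*} [CommRing A] [CommRing B] {n : ℕ} (φ : A →+* B)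
    (y : Fin n ⊕ Fin n × Fin n → A) : (b3M y).map φ = b3M fun j => φ (y j) := rfl

/-- The function whose nonzeros are the good points. -/
private noncomputable def b3g {A : Type*} [CommRing A] {n : ℕ}
    (y : Fin n ⊕ Fin n × Fin n → A) : A :=
  resultant (b3P y) (derivative (b3P y)) n (n - 1) * (b3M y).det

private lemma b3g_map {A B : Type*} [CommRing A] [CommRing B] {n : ℕ} (φ : A →+* B)
    (y : Fin n ⊕ Fin n × Fin n → A) : φ (b3g y) = b3g fun j => φ (y j) := by
  rw [b3g, b3g, map_mul, RingHom.map_det, ← b3P_map, derivative_map, resultant_map_map,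
    ← b3M_map]
  rfl

private lemma b3g_ne_zero {F : Type*} [Field F] {n : ℕ} (y : Fin n ⊕ Fin n × Fin n → F) :
    b3g y ≠ 0 ↔ (b3P y).Separable ∧ (b3M y).det ≠ 0 := by
  have h1 := resultant_deriv_monic (b3P_monic y) (b3P_natDegree y)
  rw [b3g, h1, mul_ne_zero_iff, mul_ne_zero_iff]
  constructor
  · rintro ⟨⟨-, h⟩, h'⟩
    exact ⟨separable_of_discr_ne_zero (b3P_monic y) h, h'⟩
  · rintro ⟨h, h'⟩
    exact ⟨⟨pow_ne_zero _ (neg_ne_zero.mpr one_ne_zero),
      discr_ne_zero_of_separable (b3P_monic y) h⟩, h'⟩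

/-- Polynomials are continuous. -/
private lemma b3_cont {k K ι : Type*} [Field k] [Fintype ι] [NormedField K] [Algebra k K]
    (f : MvPolynomial ι k) (v : ι → K) {ε : ℝ} (hε : 0 < ε) :
    ∃ δ : ℝ, 0 < δ ∧ ∀ v' : ι → K, (∀ j, ‖v' j - v j‖ < δ) →
      ‖MvPolynomial.aeval v' f - MvPolynomial.aeval v f‖ < ε := by
  have hc : Continuous fun w : ι → K => MvPolynomial.aeval w f := by
    have h : (fun w : ι → K => MvPolynomial.aeval w f) =
        fun w => MvPolynomial.eval w (MvPolynomial.map (algebraMap k K) f) := by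
      funext w
      rw [MvPolynomial.eval_map]
      rfl
    rw [h]
    exact MvPolynomial.continuous_eval _
  obtain ⟨δ, hδ, H⟩ := Metric.continuousAt_iff.mp hc.continuousAt ε hε
  refine ⟨δ, hδ, fun v' hv => ?_⟩
  have h1 : dist v' v < δ := by
    rw [dist_pi_lt_iff hδ]
    intro j
    rw [dist_eq_norm]
    exact hv j
  have h2 := H h1
  rw [dist_eq_norm] at h2
  exact h2

/-- **The ring generated by the coordinates of a generic point of `U_Q`.**

Proof.  Let `A` be the subalgebra, `g = disc(P) · det M ∈ A` (the discriminant is a polynomial in the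
coefficients, compare `discr_mem_adjoin` in `MP_12adaf_nt/CM/Rational.lean`).  A point `A →ₐ[k] K_i`
outside the zeros of `g` maps `(P, M)` to a pair `(P_i, M_i)` over `K_i` with `TPt n Q P_i M_i` (for the
equation `Mᵀ Q M = HH n P`: the entries of `HH n P` are polynomials in the coefficients, there should be a
lemma on maps `HH n (P.map φ) = (HH n P).map φ`; apply it over the ring `A`, or to the localization).
`HM.points_approx` gives `(P', M')` over `k`, near the `(P_i, M_i)` for `i ∈ S`; by `hgen` there is a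
homomorphism `R : A →ₐ[k] k` which maps the coordinates of `(P, M)` to those of `(P', M')`
(`A` is the quotient of the polynomial ring by the kernel of `aeval (coords P M)`).  The elements of
`b` are polynomials in the coordinates, so `R x` is near `P i x` if the coordinates are near
(continuity of polynomials). -/
theorem approximable_traceForm {k F : Type u} [Field k] [NumberField k] [Field F] [Algebra k F]
    {n : ℕ} (hn : 4 ≤ n) {Q : Matrix (Fin n) (Fin n) k} {P : F[X]}
    {M : Matrix (Fin n) (Fin n) F} (h : TPt n (Q.map (algebraMap k F)) P M)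
    (hgen : ∀ f : MvPolynomial (Fin n ⊕ Fin n × Fin n) k, MvPolynomial.aeval (coords P M) f = 0 →
      ∀ (P' : k[X]) (M' : Matrix (Fin n) (Fin n) k), TPt n Q P' M' →
        MvPolynomial.aeval (coords P' M') f = 0) :
    Approximable k (Algebra.adjoin k (Set.range (coords P M))) := by
  classical
  set A := Algebra.adjoin k (Set.range (coords P M)) with hA
  let y : Fin n ⊕ Fin n × Fin n → A := fun j => ⟨coords P M j, Algebra.subset_adjoin ⟨j, rfl⟩⟩
  have hyF : (fun j => algebraMap A F (y j)) = coords P M := rfl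
  have hPF : (b3P y).map (algebraMap A F) = P := by
    rw [b3P_map, hyF, b3P_eq h.monic h.deg]
  have hMF : (b3M y).map (algebraMap A F) = M := rfl
  have hinj : Function.Injective (algebraMap A F) := Subtype.val_injective
  -- the equation over `A`
  have hQA : (Q.map (algebraMap k A)).map (algebraMap A F) = Q.map (algebraMap k F) := by
    ext a b
    simp only [Matrix.map_apply]
    exact (IsScalarTower.algebraMap_apply k A F (Q a b)).symm
  have heq : (b3M y).transpose * Q.map (algebraMap k A) * b3M y = HH n (b3P y) := by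
    refine Matrix.map_injective hinj ?_
    change ((b3M y).transpose * Q.map (algebraMap k A) * b3M y).map (algebraMap A F) =
      (HH n (b3P y)).map (algebraMap A F)
    rw [map_HH (algebraMap A F) (b3P_monic y), hPF, Matrix.map_mul, Matrix.map_mul, hQA, hMF,
      Matrix.transpose_map, hMF]
    exact h.eq
  refine ⟨b3g y, ?_, ?_⟩
  · intro h0
    have h1 := b3g_map (algebraMap A F) y
    rw [h0, map_zero, hyF] at h1
    refine (b3g_ne_zero (coords P M)).2 ⟨?_, ?_⟩ h1.symm
    · rw [b3P_eq h.monic h.deg]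
      exact h.sep
    · exact h.det
  intro Φ hΦ S b ε hε
  -- the local points
  have hloc : ∀ i : Pl k, TPt n (Q.map (plEmb k i)) (b3P fun j => Φ i (y j))
      (b3M fun j => Φ i (y j)) := by
    intro i
    have h1 : b3g (fun j => Φ i (y j)) ≠ 0 := by
      have := b3g_map (Φ i).toRingHom y
      change Φ i (b3g y) = b3g fun j => Φ i (y j) at this
      rw [← this]
      exact hΦ i
    obtain ⟨h2, h3⟩ := (b3g_ne_zero _).1 h1
    refine ⟨b3P_monic _, b3P_natDegree _, h2, h3, ?_⟩
    have h4 := congrArg (fun N : Matrix (Fin n) (Fin n) A => N.map (Φ i).toRingHom) heq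
    change ((b3M y).transpose * Q.map (algebraMap k A) * b3M y).map (Φ i).toRingHom =
      (HH n (b3P y)).map (Φ i).toRingHom at h4
    rw [map_HH (Φ i).toRingHom (b3P_monic y), b3P_map, Matrix.map_mul, Matrix.map_mul,
      Matrix.transpose_map, b3M_map] at h4
    have h5 : (Q.map (algebraMap k A)).map (Φ i).toRingHom = Q.map (plEmb k i) := by
      ext a b
      simp only [Matrix.map_apply]
      exact ((Φ i).commutes (Q a b)).trans (algebraMap_plC i (Q a b))
    rw [h5] at h4
    exact h4
  -- the elements of `b` as polynomials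
  have hsurj : Function.Surjective (MvPolynomial.aeval y : MvPolynomial _ k →ₐ[k] A) := by
    rintro ⟨z, hz⟩
    have hz' := hz
    rw [hA, Algebra.adjoin_range_eq_range_aeval] at hz'
    obtain ⟨f, hf⟩ := hz'
    refine ⟨f, Subtype.ext ?_⟩
    have h1 := MvPolynomial.aeval_algebraMap_apply F y f
    change MvPolynomial.aeval (coords P M) f = algebraMap A F (MvPolynomial.aeval y f) at h1
    change algebraMap A F (MvPolynomial.aeval y f) = z
    rw [← h1]
    exact hf
  choose f hf using hsurj
  -- the tolerance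
  obtain ⟨δ, hδ, hδH⟩ : ∃ δ : ℝ, 0 < δ ∧ ∀ i ∈ S, ∀ z ∈ b, ∀ v' : _ → PlC k i,
      (∀ j, ‖v' j - Φ i (y j)‖ < δ) →
      ‖MvPolynomial.aeval v' (f z) - MvPolynomial.aeval (fun j => Φ i (y j)) (f z)‖ < ε := by
    have h1 : ∀ (i : Pl k) (z : A), ∃ δ : ℝ, 0 < δ ∧ ∀ v' : _ → PlC k i,
        (∀ j, ‖v' j - Φ i (y j)‖ < δ) →
        ‖MvPolynomial.aeval v' (f z) - MvPolynomial.aeval (fun j => Φ i (y j)) (f z)‖ < ε :=
      fun i z => b3_cont (f z) (fun j => Φ i (y j)) hε
    choose d hd hdH using h1
    rcases (S ×ˢ b).eq_empty_or_nonempty with he | hne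
    · refine ⟨1, one_pos, fun i hi z hz => ?_⟩
      have : (i, z) ∈ S ×ˢ b := Finset.mk_mem_product hi hz
      rw [he] at this
      simp at this
    · refine ⟨(S ×ˢ b).inf' hne fun p => d p.1 p.2, ?_, fun i hi z hz v' hv => ?_⟩
      · rw [Finset.lt_inf'_iff]
        exact fun p _ => hd p.1 p.2
      · refine hdH i z v' fun j => (hv j).trans_le ?_
        exact Finset.inf'_le (fun p : Pl k × A => d p.1 p.2) (Finset.mk_mem_product hi hz)
  obtain ⟨P', M', hT, hnear⟩ := HM.points_approx hn (fun i => ⟨_, _, hloc i⟩) S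
    (fun i => b3P fun j => Φ i.1 (y j)) (fun i => b3M fun j => Φ i.1 (y j))
    (fun i => hloc i.1) hδ
  -- the point over `k`
  have hker : ∀ p : MvPolynomial (Fin n ⊕ Fin n × Fin n) k,
      p ∈ RingHom.ker (MvPolynomial.aeval y : MvPolynomial _ k →ₐ[k] A) →
      MvPolynomial.aeval (coords P' M') p = 0 := by
    intro p hp
    refine hgen p ?_ P' M' hT
    have h1 := MvPolynomial.aeval_algebraMap_apply F y p
    change MvPolynomial.aeval (coords P M) p = algebraMap A F (MvPolynomial.aeval y p) at h1
    rw [h1]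
    have h2 : MvPolynomial.aeval y p = 0 := hp
    rw [h2, map_zero]
  have hsurj : Function.Surjective (MvPolynomial.aeval y : MvPolynomial _ k →ₐ[k] A) :=
    fun z => ⟨f z, hf z⟩
  let R : A →ₐ[k] k := (Ideal.Quotient.liftₐ
    (RingHom.ker (MvPolynomial.aeval y : MvPolynomial _ k →ₐ[k] A))
    (MvPolynomial.aeval (coords P' M')) hker).comp
    (Ideal.quotientKerAlgEquivOfSurjective hsurj).symm.toAlgHom
  have hR : ∀ z : A, R z = MvPolynomial.aeval (coords P' M') (f z) := by
    intro z
    have h1 : (Ideal.quotientKerAlgEquivOfSurjective hsurj).symm z =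
        Ideal.Quotient.mk _ (f z) := by
      rw [AlgEquiv.symm_apply_eq, Ideal.quotientKerAlgEquivOfSurjective_mk, hf]
    change Ideal.Quotient.liftₐ _ _ hker
      ((Ideal.quotientKerAlgEquivOfSurjective hsurj).symm z) = _
    rw [h1]
    rfl
  refine ⟨R, fun i hi z hz => ?_⟩
  have h1 : algebraMap k (PlC k i) (R z) =
      MvPolynomial.aeval (fun j => algebraMap k (PlC k i) (coords P' M' j)) (f z) := by
    rw [hR z]
    exact (MvPolynomial.aeval_algebraMap_apply (PlC k i) (coords P' M') (f z)).symm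
  have h2 : Φ i z = MvPolynomial.aeval (fun j => Φ i (y j)) (f z) := by
    conv_lhs => rw [← hf z]
    exact MvPolynomial.comp_aeval_apply y (Φ i) (f z)
  rw [h1, h2]
  refine hδH i hi z hz _ fun j => ?_
  obtain ⟨n1, n2⟩ := hnear ⟨i, hi⟩
  rcases j with j | ⟨a, c⟩
  · have := n1 j
    rw [b3P_coeff] at this
    rw [algebraMap_plC]
    exact this
  · have := n2 a c
    rw [algebraMap_plC]
    exact this

end Pool.Agent.Lib.MP_12adaf_nt.WA
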