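import Pool.Agent.Lib.MP_12adaf_nt.CM.Rational

/-!
# The function fields of the varieties `d y ^ 2 = disc P`
-/

namespace Pool.Agent.Lib.MP_12adaf_nt.WA

open Polynomial

section B4aux

/-- The universal monic polynomial of degree `n`. -/
private noncomputable def uP (R : Type*) [CommRing R] (n : ℕ) : (MvPolynomial (Fin n) R)[X] :=
  X ^ n + toPoly (fun i : Fin n => (MvPolynomial.X i : MvPolynomial (Fin n) R))

/-- The universal discriminant. -/
private noncomputable def uD (R : Type*) [CommRing R] (n : ℕ) : MvPolynomial (Fin n) R :=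
  (-1) ^ (n * (n - 1) / 2) * resultant (uP R n) (derivative (uP R n)) n (n - 1)

private lemma uP_map {R S : Type*} [CommRing R] [CommRing S] {n : ℕ}
    (φ : MvPolynomial (Fin n) R →+* S) {P : S[X]} (hP : P.Monic) (hdeg : P.natDegree = n)
    (h : ∀ i : Fin n, φ (MvPolynomial.X i) = P.coeff i) : (uP R n).map φ = P := by
  rw [uP, Polynomial.map_add, Polynomial.map_pow, Polynomial.map_X, map_toPoly]
  ext m
  rw [coeff_add, coeff_X_pow]
  rcases lt_trichotomy m n with hm | hm | hm
  · rw [if_neg hm.ne, zero_add]
    have h1 := coeff_toPoly (fun i : Fin n => φ (MvPolynomial.X i)) ⟨m, hm⟩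
    rw [h ⟨m, hm⟩] at h1
    exact h1
  · rw [if_pos hm, coeff_eq_zero_of_degree_lt (by rw [hm]; exact degree_toPoly_lt _), add_zero,
      hm, ← hdeg]
    exact hP.coeff_natDegree.symm
  · rw [if_neg hm.ne', coeff_eq_zero_of_degree_lt
      ((degree_toPoly_lt _).trans (by exact_mod_cast hm)), add_zero,
      coeff_eq_zero_of_natDegree_lt (by rw [hdeg]; exact hm)]

private lemma uD_map {R L : Type*} [CommRing R] [Field L] {n : ℕ}
    (φ : MvPolynomial (Fin n) R →+* L) {P : L[X]} (hP : P.Monic) (hdeg : P.natDegree = n)
    (h : ∀ i : Fin n, φ (MvPolynomial.X i) = P.coeff i) : φ (uD R n) = P.discr := by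
  have h1 := resultant_deriv_monic hP hdeg
  have h2 : P.discr = (-1) ^ (n * (n - 1) / 2) * resultant P (derivative P) n (n - 1) := by
    rw [h1, ← mul_assoc, ← mul_pow]
    simp
  have h3 := uP_map φ hP hdeg h
  rw [h2, uD, map_mul, map_pow, map_neg, map_one, ← resultant_map_map, ← derivative_map, h3]

/-- The universal discriminant is not a constant times a square. -/
private lemma core {K : Type*} [Field K] [CharZero K] {n : ℕ} (hn : 2 ≤ n) {d : K}
    {A B : MvPolynomial (Fin n) K} (hB : B ≠ 0)
    (h : uD K n * B ^ 2 = MvPolynomial.C d * A ^ 2) : False := by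
  have hchar : CharZero (AlgebraicClosure K) :=
    charZero_of_injective_algebraMap (algebraMap K (AlgebraicClosure K)).injective
  obtain ⟨c, hc⟩ := IsAlgClosed.exists_pow_nat_eq (algebraMap K (AlgebraicClosure K) d)
    (n := 2) two_pos
  let R := MvPolynomial (Fin n) (AlgebraicClosure K)
  let ψ0 : MvPolynomial (Fin n) (AlgebraicClosure K) →ₐ[AlgebraicClosure K] R :=
    (MvPolynomial.symmetricSubalgebra (Fin n) (AlgebraicClosure K)).val.comp
      ((MvPolynomial.esymmAlgHom (Fin n) (AlgebraicClosure K) n).comp
        (MvPolynomial.rename Fin.rev))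
  have hψ0 : Function.Injective ψ0 := by
    have h1 : Function.Injective
        (MvPolynomial.symmetricSubalgebra (Fin n) (AlgebraicClosure K)).val :=
      Subtype.val_injective
    have h2 := MvPolynomial.esymmAlgHom_fin_injective (AlgebraicClosure K) (le_refl n)
    have h3 : Function.Injective (MvPolynomial.rename (R := AlgebraicClosure K)
        (Fin.rev : Fin n → Fin n)) := MvPolynomial.rename_injective _ Fin.rev_injective
    exact h1.comp (h2.comp h3)
  let ψ : MvPolynomial (Fin n) K →+* R :=
    ψ0.toRingHom.comp (MvPolynomial.map (algebraMap K (AlgebraicClosure K)))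
  have hψ : Function.Injective ψ :=
    hψ0.comp (MvPolynomial.map_injective _ (algebraMap K (AlgebraicClosure K)).injective)
  have hψX : ∀ i : Fin n, ψ (MvPolynomial.X i) =
      MvPolynomial.esymm (Fin n) (AlgebraicClosure K) (n - i) := by
    intro i
    have h1 : ψ (MvPolynomial.X i) = ψ0 (MvPolynomial.X i) := by
      change ψ0 (MvPolynomial.map _ (MvPolynomial.X i)) = _
      rw [MvPolynomial.map_X]
    rw [h1]
    change ((MvPolynomial.esymmAlgHom (Fin n) (AlgebraicClosure K) n
      (MvPolynomial.rename Fin.rev (MvPolynomial.X i))).val : R) = _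
    rw [MvPolynomial.rename_X, MvPolynomial.esymmAlgHom_apply, MvPolynomial.aeval_X, Fin.val_rev]
    congr 1
    have := i.2
    omega
  have hψC : ψ (MvPolynomial.C d) = MvPolynomial.C c ^ 2 := by
    change ψ0 (MvPolynomial.map _ (MvPolynomial.C d)) = _
    rw [MvPolynomial.map_C, ← MvPolynomial.algebraMap_eq, AlgHom.commutes, ← hc,
      MvPolynomial.algebraMap_eq, MvPolynomial.C_pow]
  have h0 : 0 < n := by omega
  have h1n : 1 < n := by omega
  let e : Equiv.Perm (Fin n) := Equiv.swap ⟨0, h0⟩ ⟨1, h1n⟩
  let σ : R →ₐ[AlgebraicClosure K] R := MvPolynomial.rename e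
  have hσψ : ∀ z, σ (ψ z) = ψ z := by
    intro z
    exact ((MvPolynomial.esymmAlgHom (Fin n) (AlgebraicClosure K) n
      (MvPolynomial.rename Fin.rev
        (MvPolynomial.map (algebraMap K (AlgebraicClosure K)) z))).2) e
  have hσC : σ (MvPolynomial.C c) = MvPolynomial.C c := MvPolynomial.rename_C _ _
  let v : Fin n → R := fun i => - MvPolynomial.X i
  let V : R := (Matrix.vandermonde v).det
  have hV : V ≠ 0 := by
    refine Matrix.det_vandermonde_ne_zero_iff.mpr fun i j hij => ?_
    exact MvPolynomial.X_injective (neg_injective hij)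
  have hσV : σ V = - V := by
    have h1 : σ V = ((Matrix.vandermonde v).submatrix e id).det := by
      change σ (Matrix.vandermonde v).det = _
      rw [AlgHom.map_det]
      refine congrArg Matrix.det (Matrix.ext fun i j => ?_)
      change σ ((v i) ^ (j : ℕ)) = (v (e i)) ^ (j : ℕ)
      rw [map_pow]
      congr 1
      change σ (- MvPolynomial.X i) = - MvPolynomial.X (e i)
      rw [map_neg]
      congr 1
      exact MvPolynomial.rename_X _ _
    rw [h1, Matrix.det_permute, Equiv.Perm.sign_swap (by
      intro h
      simpa using congrArg Fin.val h)]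
    simp only [Units.val_neg, Units.val_one, Int.cast_neg, Int.cast_one, neg_one_mul]
    rfl
  let L := FractionRing R
  let ι : R →+* L := algebraMap R L
  have hι : Function.Injective ι := IsFractionRing.injective R L
  have hQ : nod (fun i => ι (v i)) =
      (∏ i : Fin n, (X + C (MvPolynomial.X i : R))).map ι := by
    rw [nod, Polynomial.map_prod]
    refine Finset.prod_congr rfl fun i _ => ?_
    rw [Polynomial.map_add, Polynomial.map_X, Polynomial.map_C]
    simp [v, sub_eq_add_neg]
  have hD : ψ (uD K n) = V ^ 2 := by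
    apply hι
    have h2 := uD_map (ι.comp ψ) (P := nod (fun i => ι (v i))) (nod_monic _)
      (by rw [natDegree_nod, Fintype.card_fin]) (by
        intro i
        rw [hQ, coeff_map, MvPolynomial.prod_X_add_C_coeff _ _ _ (by
          rw [Fintype.card_fin]; exact i.2.le), Fintype.card_fin]
        exact congrArg ι (hψX i))
    change ι (ψ (uD K n)) = _ at h2
    rw [h2, discr_nod, map_pow]
    congr 1
    change _ = ι (Matrix.vandermonde v).det
    rw [RingHom.map_det]
    refine congrArg Matrix.det (Matrix.ext fun i j => ?_)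
    simp [Matrix.vandermonde_apply]
  have hmain : (V * ψ B) ^ 2 = (MvPolynomial.C c * ψ A) ^ 2 := by
    have h3 := congrArg ψ h
    rw [map_mul, map_mul, map_pow, map_pow, hD, hψC] at h3
    rw [mul_pow, mul_pow]
    exact h3
  have hfin : σ (V * ψ B) = V * ψ B := by
    rcases sq_eq_sq_iff_eq_or_eq_neg.mp hmain with h4 | h4
    · rw [h4, map_mul, hσψ, hσC]
    · rw [h4, map_neg, map_mul, hσψ, hσC]
  rw [map_mul, hσV, hσψ, neg_mul] at hfin
  have h5 : V * ψ B = 0 := self_eq_neg.mp hfin.symm
  rcases mul_eq_zero.mp h5 with h6 | h6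
  · exact hV h6
  · exact hB (hψ (h6.trans (map_zero ψ).symm))

end B4aux

/-- The discriminant of the generic polynomial is not a square times a constant.

Proof.  Otherwise `P.discr = algebraMap K F d * s ^ 2` with `s` in the subfield `L` generated over
`K` by the coefficients.  Let `Ω` be an algebraically closed field with algebraically independent
elements `x 0, …, x (n-1)` over `K` (e.g. an algebraic closure of
`FractionRing (MvPolynomial (Fin n) K)`); the coefficients of `∏ (X - x i)` are algebraically
independent (`x i` is algebraic over the field they generate; or the fundamental theorem on symmetric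
polynomials, Mathlib: `MvPolynomial.esymmAlgEquiv`), so `L` embeds in `Ω`, `P` becomes `∏ (X - x i)`,
whose discriminant is the square of the Vandermonde product `V`; so `V = c s` with `c ^ 2 = d`, `c ∈ Ω`
algebraic over `K`.  Let `σ` be an automorphism of `K(c)(x)` over `K(c)` which exchanges `x 0` and
`x 1`; it fixes `c`, and `s ∈ L`, but `σ V = -V ≠ V`, a contradiction. -/
theorem discr_ne_mul_sq {K F : Type*} [Field K] [CharZero K] [Field F] [Algebra K F] {n : ℕ}
    (hn : 2 ≤ n) {d : K} (hd : d ≠ 0) {P : F[X]} (hP : P.Monic) (hdeg : P.natDegree = n)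
    (hind : AlgebraicIndependent K fun i : Fin n => P.coeff i) {s : F}
    (hs : s ∈ IntermediateField.adjoin K (Set.range fun i : Fin n => P.coeff i)) :
    P.discr ≠ algebraMap K F d * s ^ 2 := by
  intro hcon
  obtain ⟨A, B, hAB⟩ := (IntermediateField.mem_adjoin_range_iff K _ s).mp hs
  have hinj : Function.Injective
      (MvPolynomial.aeval (R := K) fun i : Fin n => P.coeff i) := hind
  have hD := uD_map (MvPolynomial.aeval (R := K) fun i : Fin n => P.coeff i).toRingHom hP hdeg
    (fun i => MvPolynomial.aeval_X _ i)
  change MvPolynomial.aeval (fun i : Fin n => P.coeff i) (uD K n) = P.discr at hD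
  have hs0 : s ≠ 0 := by
    intro h0
    rw [h0, zero_pow two_ne_zero, mul_zero] at hcon
    rw [hcon] at hD
    have h1 : uD K n = 0 := hinj (hD.trans (map_zero _).symm)
    exact core hn (A := 0) (B := 1) (d := d) one_ne_zero (by rw [h1]; ring)
  have hB : B ≠ 0 := by
    intro h0
    apply hs0
    rw [hAB, h0, map_zero, div_zero]
  have hB' : MvPolynomial.aeval (fun i : Fin n => P.coeff i) B ≠ 0 := by
    intro h0
    exact hB (hinj (h0.trans (map_zero _).symm))
  refine core hn (d := d) hB (A := A) (hinj ?_)
  rw [map_mul, map_mul, map_pow, map_pow, hD, hcon, hAB, MvPolynomial.aeval_C]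
  field_simp

/-- The function field of `d y ^ 2 = disc P` is a quadratic extension of the field of rational
functions in the coefficients. -/
private lemma equiv_adjoinRoot {K F : Type*} [Field K] [CharZero K] [Field F] [Algebra K F]
    {n : ℕ} (hn : 2 ≤ n) {d : K} (hd : d ≠ 0) {P : F[X]} {y : F} (hP : P.Monic)
    (hdeg : P.natDegree = n) (hdisc : P.discr = algebraMap K F d * y ^ 2)
    (hind : AlgebraicIndependent K fun i : Fin n => P.coeff i)
    (hgen : IntermediateField.adjoin K (insert y (Set.range fun i : Fin n => P.coeff i)) = ⊤) :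
    Nonempty (F ≃ₐ[K] AdjoinRoot (X ^ 2 - C
      (algebraMap (MvPolynomial (Fin n) K) (FractionRing (MvPolynomial (Fin n) K)) (uD K n) /
        algebraMap K (FractionRing (MvPolynomial (Fin n) K)) d))) := by
  let E := FractionRing (MvPolynomial (Fin n) K)
  let δ : E := algebraMap (MvPolynomial (Fin n) K) E (uD K n) / algebraMap K E d
  have hdE : algebraMap K E d ≠ 0 := (map_ne_zero_iff _ (algebraMap K E).injective).mpr hd
  have hdF : algebraMap K F d ≠ 0 := (map_ne_zero_iff _ (algebraMap K F).injective).mpr hd
  have hinj : Function.Injective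
      (MvPolynomial.aeval (R := K) fun i : Fin n => P.coeff i) := hind
  let i : E →ₐ[K] F := IsFractionRing.liftAlgHom hinj
  have hi : ∀ z : MvPolynomial (Fin n) K, i (algebraMap _ E z) =
      MvPolynomial.aeval (fun i : Fin n => P.coeff i) z := by
    intro z
    exact IsFractionRing.lift_algebraMap hinj z
  have hD := uD_map (MvPolynomial.aeval (R := K) fun i : Fin n => P.coeff i).toRingHom hP hdeg
    (fun i => MvPolynomial.aeval_X _ i)
  change MvPolynomial.aeval (fun i : Fin n => P.coeff i) (uD K n) = P.discr at hD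
  have hiδ : i δ = y ^ 2 := by
    change i (algebraMap (MvPolynomial (Fin n) K) E (uD K n) / algebraMap K E d) = _
    rw [map_div₀, hi, hD, hdisc, AlgHom.commutes]
    field_simp
  let _ : Algebra E F := i.toRingHom.toAlgebra
  have halg : ∀ z : E, algebraMap E F z = i z := fun _ => rfl
  have _ : IsScalarTower K E F := IsScalarTower.of_algebraMap_eq fun z => by
    rw [halg, AlgHom.commutes]
  have hirr : Irreducible (X ^ 2 - C δ : E[X]) := by
    refine X_pow_sub_C_irreducible_of_prime Nat.prime_two fun b hb => ?_
    obtain ⟨A, B, hB, rfl⟩ := IsFractionRing.div_surjective (A := MvPolynomial (Fin n) K) b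
    have hB0 : B ≠ 0 := nonZeroDivisors.ne_zero hB
    have hB1 : algebraMap (MvPolynomial (Fin n) K) E B ≠ 0 :=
      (map_ne_zero_iff _ (IsFractionRing.injective _ E)).mpr hB0
    refine core hn (d := d) hB0 (A := A) ?_
    apply IsFractionRing.injective (MvPolynomial (Fin n) K) E
    rw [map_mul, map_mul, map_pow, map_pow, ← MvPolynomial.algebraMap_eq,
      ← IsScalarTower.algebraMap_apply]
    change (algebraMap (MvPolynomial (Fin n) K) E A / algebraMap (MvPolynomial (Fin n) K) E B) ^ 2 =
      algebraMap (MvPolynomial (Fin n) K) E (uD K n) / algebraMap K E d at hb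
    rw [div_pow, div_eq_div_iff (pow_ne_zero 2 hB1) hdE] at hb
    rw [← hb]
    ring
  have hmon : (X ^ 2 - C δ : E[X]).Monic := monic_X_pow_sub_C δ two_ne_zero
  have hroot : aeval y (X ^ 2 - C δ : E[X]) = 0 := by
    rw [map_sub, map_pow, aeval_X, aeval_C, halg, hiδ, sub_self]
  have hmin : X ^ 2 - C δ = minpoly E y := minpoly.eq_of_irreducible_of_monic hirr hroot hmon
  have hint : IsIntegral E y := ⟨_, hmon, by rwa [← aeval_def]⟩
  have htop : IntermediateField.adjoin E {y} = ⊤ := by
    rw [eq_top_iff]
    intro z _
    have hz : z ∈ IntermediateField.adjoin K (insert y (Set.range fun i : Fin n => P.coeff i)) := by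
      rw [hgen]; trivial
    have hle : IntermediateField.adjoin K (insert y (Set.range fun i : Fin n => P.coeff i)) ≤
        (IntermediateField.adjoin E {y}).restrictScalars K := by
      rw [IntermediateField.adjoin_le_iff]
      intro w hw
      rcases Set.mem_insert_iff.mp hw with rfl | ⟨j, rfl⟩
      · exact IntermediateField.mem_adjoin_simple_self E w
      · have h1 : P.coeff j = algebraMap E F (algebraMap _ E
            (MvPolynomial.X j : MvPolynomial (Fin n) K)) := by
          rw [halg, hi, MvPolynomial.aeval_X]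
        have h2 : algebraMap E F (algebraMap _ E
            (MvPolynomial.X j : MvPolynomial (Fin n) K)) ∈ IntermediateField.adjoin E {y} :=
          IntermediateField.algebraMap_mem _ _
        rw [← h1] at h2
        exact h2
    exact hle hz
  have h1 : Nonempty (F ≃ₐ[E] AdjoinRoot (minpoly E y)) :=
    ⟨(((IntermediateField.adjoinRootEquivAdjoin E hint).trans
      (IntermediateField.equivOfEq htop)).trans IntermediateField.topEquiv).symm⟩
  rw [← hmin] at h1
  obtain ⟨f⟩ := h1
  exact ⟨f.restrictScalars K⟩

/-- **The function field of `d y ^ 2 = disc P` is purely transcendental.**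

Proof.  `rational_CM_frac` gives a pair `(P₀, y₀)` as here, with the field
`F₀ = FractionRing (MvPolynomial (Fin n) K)`.  Let `L ⊆ F`, `L₀ ⊆ F₀` be the subfields generated by
the coefficients; there is a `K`-isomorphism `L ≃ L₀` which maps the coefficients of `P` to those of
`P₀` (both are algebraically independent), so the discriminant to the discriminant.  By
`discr_ne_mul_sq` the polynomials `X ^ 2 - disc / d` are irreducible over `L`, `L₀`, and they are the
minimal polynomials of `y`, `y₀`, so the isomorphism extends to `F = L(y) ≃ L₀(y₀) = F₀`. -/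
theorem nonempty_equiv_of_discr {K F : Type*} [Field K] [CharZero K] [Field F] [Algebra K F]
    {n : ℕ} (hn : 2 ≤ n) {d : K} (hd : d ≠ 0) {P : F[X]} {y : F} (hP : P.Monic)
    (hdeg : P.natDegree = n) (hdisc : P.discr = algebraMap K F d * y ^ 2) (hy : y ≠ 0)
    (hind : AlgebraicIndependent K fun i : Fin n => P.coeff i)
    (hgen : IntermediateField.adjoin K (insert y (Set.range fun i : Fin n => P.coeff i)) = ⊤) :
    Nonempty (F ≃ₐ[K] FractionRing (MvPolynomial (Fin n) K)) := by
  obtain ⟨f⟩ := equiv_adjoinRoot hn hd hP hdeg hdisc hind hgen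
  obtain ⟨P₀, y₀, hP₀, hdeg₀, hdisc₀, -, hind₀, hgen₀⟩ := rational_CM_frac (K := K) hn hd
  obtain ⟨f₀⟩ := equiv_adjoinRoot hn hd hP₀ hdeg₀ hdisc₀ hind₀ hgen₀
  exact ⟨f.trans f₀.symm⟩

end Pool.Agent.Lib.MP_12adaf_nt.WA
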